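import Pool.Agent.H889.LM.GeoA

/-!
# The dichotomy for open curves: concrete form
-/

set_option autoImplicit false
set_option linter.all false

open Polynomial FF

namespace Pool.Agent.H889.LM

open Pool.Agent.Y157.PS Pool.Agent.Y948.PS Pool.Agent.H889.PS

section defs

variable {k F Ω : Type} [Field k] [Field F] [Field Ω] [Algebra k F]
  [Algebra F Ω] [Algebra k Ω] [IsScalarTower k F Ω]

/-- `O` is above the Gauss valuation of `k̄(x)` -/
def GaussP (V : ValuationSubring (algebraicClosure k Ω)) (x : F) (N : IntermediateField F Ω)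
    (O : ValuationSubring N) : Prop :=
  (∀ (c : algebraicClosure k Ω) (z : N), (z : Ω) = (c : Ω) → (z ∈ O ↔ c ∈ V)) ∧
  ∀ p : (algebraicClosure k Ω)[X], (∀ n, p.coeff n ∈ V) → (∃ n, IsU V (p.coeff n)) →
    ∀ z : N, (z : Ω) = aeval (algebraMap F Ω x) p → IsU O z

/-- ramified in `M_U` over `k̄(x)` -/
def RamU (ℓ : ℕ) (k : Type) {F Ω : Type} [Field k] [Field F] [Field Ω] [Algebra k F]
    [Algebra F Ω] [Algebra k Ω] (U : Set (ValuationSubring F)) (x : F) (N : IntermediateField F Ω)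
    (W : ValuationSubring N) : Prop :=
  ∃ z : N, (z : Ω) ∈ proU ℓ k F Ω U ∧ z ≠ 0 ∧
    ∀ t : N, (t : Ω) ∈ ratL (Ω := Ω) k x → t ≠ 0 → ¬ IsU W (z / t)

end defs

section main

variable {A k F Ω : Type} [CommRing A] [IsDomain A] [IsDiscreteValuationRing A]
    [Finite (IsLocalRing.ResidueField A)] [Field k] [CharZero k] [Algebra A k] [IsFractionRing A k]
    [Field F] [Field Ω] [Algebra k F] [Algebra F Ω] [Algebra k Ω] [IsScalarTower k F Ω]
    [IsAlgClosed Ω] [Algebra.IsAlgebraic F Ω]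

theorem geoB {ℓ : ℕ} [Fact ℓ.Prime]
    (V : ValuationSubring (algebraicClosure k Ω))
    (hVA : ∀ a : A, algebraMap k (algebraicClosure k Ω) (algebraMap A k a) ∈ V)
    (hVm : ∀ a ∈ IsLocalRing.maximalIdeal A,
      algebraMap k (algebraicClosure k Ω) (algebraMap A k a) ∈ V.nonunits)
    (hℓ : IsUnit (ℓ : A)) (f : A[X]) (hlc : IsUnit f.leadingCoeff)
    (hs : (f.map (IsLocalRing.residue A)).Separable) (x : F) (hx : Transcendental k x)
    (U : Set (ValuationSubring F)) (hUk : ∀ O ∈ U, ∀ c : k, algebraMap k F c ∈ O)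
    (hUsat : ∀ O ∈ U, ∀ O' : ValuationSubring F, (∀ c : k, algebraMap k F c ∈ O') →
      (∀ r ∈ IntermediateField.adjoin k {x}, r ∈ O' ↔ r ∈ O) → O' ∈ U)
    (hUf : ∀ O : ValuationSubring F, O ≠ ⊤ → (∀ c : k, algebraMap k F c ∈ O) → x ∈ O →
      aeval x (f.map (algebraMap A k)) ∉ O.nonunits → O ∈ U)
    (L : IntermediateField (ratL (Ω := Ω) k x) Ω) (hL : Lev ℓ L)
    (hFL : ∀ z : F, algebraMap F Ω z ∈ L)
    (hLu : ∀ W : ValuationSubring Ω, (∀ c : k, algebraMap k Ω c ∈ W) →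
      W.comap (algebraMap F Ω) ∈ U → ∀ z ∈ L, z ≠ 0 →
      ∃ t ∈ geomF k F Ω, t ≠ 0 ∧ IsU W (z / t))
    (hLf : ∀ W : ValuationSubring Ω, (∀ c : k, algebraMap k Ω c ∈ W) → algebraMap F Ω x ∈ W →
      algebraMap F Ω (aeval x (f.map (algebraMap A k))) ∉ W.nonunits → ∀ z ∈ L, z ≠ 0 →
        ∃ t ∈ ratL (Ω := Ω) k x, t ≠ 0 ∧ IsU W (z / t))
    (hbig : ∃ z ∈ maxPro ℓ k L Ω, z ∉ L)
    (S : (algebraicClosure k Ω ≃ₐ[k] algebraicClosure k Ω) →*
      (proU ℓ k F Ω U ≃ₐ[F] proU ℓ k F Ω U)) (hcont : Continuous S)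
    (hcompat : ∀ σ (c : algebraicClosure k Ω) (z : proU ℓ k F Ω U), (z : Ω) = (c : Ω) →
      (S σ z : Ω) = (σ c : Ω)) :
    ∃ O : ValuationSubring (proU ℓ k F Ω U), GaussP V x (proU ℓ k F Ω U) O ∧
      (∀ O' : ValuationSubring (proU ℓ k F Ω U), GaussP V x (proU ℓ k F Ω U) O' → O' = O) ∧
      ((∀ σ, Ine V σ → ∀ z ∈ O, S σ z - z ∈ O.nonunits) ∨
        ∃ W : ValuationSubring (proU ℓ k F Ω U),
          (((∀ c : k, algebraMap F (proU ℓ k F Ω U) (algebraMap k F c) ∈ W) ∧
            RamU ℓ k U x (proU ℓ k F Ω U) W) ∧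
            (∀ z ∈ W, ∃ c : algebraicClosure k Ω, ∃ z' ∈ W.nonunits, (z' : Ω) = (z : Ω) - c) ∧
            ∀ σ, Dec V σ → ∀ z, S σ z ∈ W ↔ z ∈ W) ∧
          ∀ W' : ValuationSubring (proU ℓ k F Ω U),
            ((∀ c : k, algebraMap F (proU ℓ k F Ω U) (algebraMap k F c) ∈ W') ∧
            RamU ℓ k U x (proU ℓ k F Ω U) W') →
            (∀ σ, Dec V σ → ∀ z, S σ z ∈ W' ↔ z ∈ W') → W' = W) ∧
      ((∃ O' : ValuationSubring F, (∀ p : A[X], (∃ n, IsUnit (p.coeff n)) →
        IsU O' (p.eval₂ ((algebraMap k F).comp (algebraMap A k)) x)) ∧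
        (∀ a ∈ IsLocalRing.maximalIdeal A, algebraMap k F (algebraMap A k a) ∈ O'.nonunits) ∧
        ∃ z₀ : F, z₀ ≠ 0 ∧ ∀ c : k, c ≠ 0 → ¬ IsU O' (z₀ / algebraMap k F c)) →
        ∃ W : ValuationSubring (proU ℓ k F Ω U),
          (((∀ c : k, algebraMap F (proU ℓ k F Ω U) (algebraMap k F c) ∈ W) ∧
            RamU ℓ k U x (proU ℓ k F Ω U) W) ∧
            (∀ z ∈ W, ∃ c : algebraicClosure k Ω, ∃ z' ∈ W.nonunits, (z' : Ω) = (z : Ω) - c) ∧
            ∀ σ, Dec V σ → ∀ z, S σ z ∈ W ↔ z ∈ W) ∧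
          ∀ W' : ValuationSubring (proU ℓ k F Ω U),
            ((∀ c : k, algebraMap F (proU ℓ k F Ω U) (algebraMap k F c) ∈ W') ∧
            RamU ℓ k U x (proU ℓ k F Ω U) W') →
            (∀ σ, Dec V σ → ∀ z, S σ z ∈ W' ↔ z ∈ W') → W' = W) := by
  classical
  have hac : IsAlgClosure k (algebraicClosure k Ω) := inferInstance
  have hkb : IsAlgClosed (algebraicClosure k Ω) := hac.1
  have hch : CharZero (algebraicClosure k Ω) :=
    charZero_of_injective_algebraMap (algebraMap k (algebraicClosure k Ω)).injective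
  letI : Algebra A (algebraicClosure k Ω) :=
    ((algebraMap k (algebraicClosure k Ω)).comp (algebraMap A k)).toAlgebra
  haveI hst : IsScalarTower A k (algebraicClosure k Ω) :=
    IsScalarTower.of_algebraMap_eq (fun _ => rfl)
  have hVa : ∀ a : A, algebraMap A (algebraicClosure k Ω) a ∈ V := hVA
  have hVm' : ∀ a ∈ IsLocalRing.maximalIdeal A, algebraMap A (algebraicClosure k Ω) a ∈
    V.nonunits := hVm
  obtain ⟨ϖ, hϖ⟩ := IsDiscreteValuationRing.exists_irreducible A
  have hBase : IB ℓ A k (algebraicClosure k Ω) V ϖ := ⟨hℓ, hVa, hVm', hϖ⟩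
  have hunit : ∀ b : A, IsUnit b → IsU V (algebraMap A (algebraicClosure k Ω) b) := by
    rintro b ⟨b, rfl⟩
    refine ⟨(b.isUnit.map (algebraMap A (algebraicClosure k Ω))).ne_zero, hVa _, ?_⟩
    have h1 : (algebraMap A (algebraicClosure k Ω) (b : A))⁻¹ =
        algebraMap A (algebraicClosure k Ω) ((b⁻¹ : Aˣ) : A) := by
      refine inv_eq_of_mul_eq_one_right ?_
      rw [← map_mul, Units.mul_inv, map_one]
    rw [h1]
    exact hVa _
  -- the roots
  obtain ⟨hnd, hdist⟩ := Pool.Agent.W623.SecC.roots_distinct V hVa hVm' f hlc hs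
  set P := f.map (algebraMap A (algebraicClosure k Ω)) with hP
  have hlc0 : algebraMap A (algebraicClosure k Ω) f.leadingCoeff ≠ 0 := (hunit _ hlc).1
  have hP0 : P ≠ 0 := by
    intro h
    apply hlc0
    rw [← leadingCoeff_map_of_leadingCoeff_ne_zero _ hlc0, ← hP, h, leadingCoeff_zero]
  set B : Finset (algebraicClosure k Ω) := P.roots.toFinset with hBdef
  have hmemB : ∀ θ, θ ∈ B ↔ aeval θ f = 0 := by
    intro θ
    rw [hBdef, Multiset.mem_toFinset, mem_roots hP0, IsRoot.def, hP, eval_map]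
    rfl
  have hGood : Good V B := by
    constructor
    · intro e he
      exact Pool.Agent.W308.SecC.root_mem V hVa f hlc _ ((hmemB _).1 he)
    · intro e he e' he' hne
      exact hdist e (Multiset.mem_toFinset.1 he) e' (Multiset.mem_toFinset.1 he') hne
  -- the product formula
  have hPx : ∀ z : Ω, P.eval₂ (algebraMap (algebraicClosure k Ω) Ω) z =
      algebraMap (algebraicClosure k Ω) Ω (algebraMap A (algebraicClosure k Ω) f.leadingCoeff) *
        ∏ e ∈ B, (z - algebraMap (algebraicClosure k Ω) Ω e) := by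
    intro z
    have h1 := (IsAlgClosed.splits P).eq_prod_roots
    have h5 : P.leadingCoeff = algebraMap A (algebraicClosure k Ω) f.leadingCoeff :=
      leadingCoeff_map_of_leadingCoeff_ne_zero _ hlc0
    rw [h5] at h1
    have h6 : ∏ e ∈ B, (z - algebraMap (algebraicClosure k Ω) Ω e) =
        (P.roots.map fun e => z - algebraMap (algebraicClosure k Ω) Ω e).prod := by
      rw [hBdef, Finset.prod, Multiset.toFinset_val, Multiset.dedup_eq_self.2 hnd]
    rw [h6]
    conv_lhs => rw [h1]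
    rw [eval₂_mul, eval₂_C, ← coe_eval₂RingHom, map_multiset_prod, Multiset.map_map]
    congr 2
    refine Multiset.map_congr rfl fun a _ => ?_
    simp
  have hfx : algebraMap F Ω (aeval x (f.map (algebraMap A k))) =
      P.eval₂ (algebraMap (algebraicClosure k Ω) Ω) (algebraMap F Ω x) := by
    rw [aeval_def, hom_eval₂, hP, eval₂_map, eval₂_map, ← IsScalarTower.algebraMap_eq k F Ω,
      IsScalarTower.algebraMap_eq A k (algebraicClosure k Ω), ← RingHom.comp_assoc,
      ← IsScalarTower.algebraMap_eq k (algebraicClosure k Ω) Ω]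
  -- the fields
  have hX0 : Transcendental k (algebraMap F Ω x) :=
    (transcendental_algebraMap_iff (R := k) (algebraMap F Ω).injective (a := x)).2 hx
  have hrat := ratF_adj (trans_up hX0)
  haveI := hL.fin
  haveI hcl : IsAlgClosure (ratL (Ω := Ω) k x) Ω := closure_ratL k hFL
  haveI : CharZero (ratL (Ω := Ω) k x) :=
    charZero_of_injective_algebraMap (algebraMap (algebraicClosure k Ω) _).injective
  haveI : Normal (ratL (Ω := Ω) k x) Ω := IsAlgClosure.normal _ _
  have hle : KfL (Ω := Ω) k x ≤ L := KfL_le k hFL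
  have hconstW : ∀ W : ValuationSubring Ω, (∀ c : algebraicClosure k Ω,
      algebraMap (algebraicClosure k Ω) Ω c ∈ W) → ∀ c : k, algebraMap k Ω c ∈ W :=
    fun W h c => h (algebraMap k (algebraicClosure k Ω) c)
  have hval : ∀ (W : ValuationSubring Ω) (z t : Ω), t ≠ 0 → IsU W (z / t) →
      W.valuation z = W.valuation t := by
    intro W z t ht h
    have h1 := (Pool.Agent.Y948.PS.isU_iff W).1 h
    rw [map_div₀] at h1
    rwa [div_eq_one_iff_eq] at h1
    exact (Valuation.ne_zero_iff _).2 ht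
  have htopv : ∀ z : Ω, z ≠ 0 → (⊤ : ValuationSubring Ω).valuation z = 1 := by
    intro z hz0
    exact (Pool.Agent.Y948.PS.isU_iff _).1 ⟨hz0, trivial, trivial⟩
  have hu : UnrLevP (algebraicClosure k Ω) (Ab Ω U) (KfL (Ω := Ω) k x) L := by
    intro W hW hPW z hz hz0
    by_cases htop : W = ⊤
    · subst htop
      refine ⟨1, one_mem _, one_ne_zero, ?_⟩
      rw [htopv z hz0, map_one]
    · obtain ⟨t, ht, ht0, h⟩ := hLu W (hconstW W hW) (hPW htop) z hz hz0
      exact ⟨t, ht, ht0, hval W z t ht0 h⟩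
  have hfn : ∀ W : ValuationSubring Ω, (∀ c : algebraicClosure k Ω,
      algebraMap (algebraicClosure k Ω) Ω c ∈ W) → algebraMap F Ω x ∈ W →
      (∀ e ∈ B, algebraMap F Ω x - algebraMap (algebraicClosure k Ω) Ω e ∉ W.nonunits) →
      algebraMap F Ω (aeval x (f.map (algebraMap A k))) ∉ W.nonunits := by
    intro W hW hxW hnon
    rw [hfx, hPx]
    have h5 : ∀ e ∈ B, IsU W (algebraMap F Ω x - algebraMap (algebraicClosure k Ω) Ω e) :=
      fun e he => isU_of_not_nonunit (sub_mem hxW (hW e)) (hnon e he)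
    have h6 : IsU W (∏ e ∈ B, (algebraMap F Ω x - algebraMap (algebraicClosure k Ω) Ω e)) := by
      refine ⟨Finset.prod_ne_zero_iff.2 fun e he => (h5 e he).1,
        prod_mem fun e he => (h5 e he).2.1, ?_⟩
      rw [← Finset.prod_inv_distrib]
      exact prod_mem fun e he => (h5 e he).2.2
    have h7 : IsU W (algebraMap (algebraicClosure k Ω) Ω
        (algebraMap A (algebraicClosure k Ω) f.leadingCoeff)) :=
      ⟨(_root_.map_ne_zero _).2 hlc0, hW _, by rw [← map_inv₀]; exact hW _⟩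
    have h8 := h7.mul h6
    intro h9
    rcases (nonunits_iff.1 h9).2 with h10 | h10
    · exact h8.1 h10
    · exact h10 h8.2.2
  have hHyp : Hyp ℓ (algebraicClosure k Ω)
      (⟨algebraMap F Ω x, IntermediateField.mem_adjoin_simple_self _ _⟩ : ratL (Ω := Ω) k x)
      B (Ab Ω U) L := by
    refine ⟨hrat, hL, ?_, ?_, ?_, ?_⟩
    · intro γ W hPW htop
      have h1 : W ≠ ⊤ := by
        rintro rfl
        apply htop
        ext y
        exact ⟨fun _ => trivial, fun _ => trivial⟩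
      have h2 := hPW h1
      have hγ : ∀ r ∈ IntermediateField.adjoin k {x}, γ (algebraMap F Ω r) = algebraMap F Ω r := by
        intro r hr
        have h3 : algebraMap F Ω r ∈ ratL (Ω := Ω) k x := by
          refine adjoin_le_sub (T := (ratL (Ω := Ω) k x).toSubfield.comap (algebraMap F Ω))
            ?_ ?_ _ hr
          · intro c
            change algebraMap F Ω (algebraMap k F c) ∈ ratL (Ω := Ω) k x
            rw [← IsScalarTower.algebraMap_apply]
            exact (ratL (Ω := Ω) k x).algebraMap_mem (algebraMap k (algebraicClosure k Ω) c)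
          · intro w hw
            rw [Set.mem_singleton_iff] at hw
            subst hw
            exact IntermediateField.mem_adjoin_simple_self _ _
        exact γ.commutes (⟨algebraMap F Ω r, h3⟩ : ratL (Ω := Ω) k x)
      refine hUsat _ h2 _ (fun c => ?_) (fun r hr => ?_)
      · change γ (algebraMap F Ω (algebraMap k F c)) ∈ W
        rw [hγ _ ((IntermediateField.adjoin k {x}).algebraMap_mem c)]
        exact hUk _ h2 c
      · change γ (algebraMap F Ω r) ∈ W ↔ algebraMap F Ω r ∈ W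
        rw [hγ r hr]
    · intro W hW hxW hnon htop
      refine hUf _ (fun h => htop (eq_top_of_alg (F := F) W fun c => ?_)) (fun c => ?_) hxW (fun h => ?_)
      · have h1 : c ∈ W.comap (algebraMap F Ω) := by rw [h]; trivial
        exact h1
      · change algebraMap F Ω (algebraMap k F c) ∈ W
        rw [← IsScalarTower.algebraMap_apply]
        exact hconstW W hW c
      · exact hfn W hW hxW hnon ((non_incl (algebraMap F Ω) W _).1 h)
    · intro W hW hxW hnon z hz hz0
      obtain ⟨t, ht, ht0, h⟩ := hLf W (hconstW W hW) hxW (hfn W hW hxW hnon) z hz hz0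
      exact ⟨⟨t, ht⟩, fun h0 => ht0 (congrArg Subtype.val h0), hval W z t ht0 h⟩
    · obtain ⟨z, hz, hzL⟩ := hbig
      refine ⟨z, (mem_maxPro hrat hL le_rfl (unrLev_refl L) z).1 ?_, hzL⟩
      refine (maxPro_congr (RingEquiv.refl L) (fun a => rfl) (fun W => ⟨fun h c => ?_,
        fun h c => ?_⟩) z).1 hz
      · exact h (algebraMap k (algebraicClosure k Ω) c)
      · exact Pool.Agent.W620.SC.const_mem h c.2
  have hMN : ∀ z, z ∈ MFU ℓ (algebraicClosure k Ω) (Ab Ω U) L ↔ z ∈ proU ℓ k F Ω U := by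
    intro z
    have h1 : z ∈ MFU ℓ (algebraicClosure k Ω) (Ab Ω U) L ↔
        z ∈ maxU ℓ (algebraicClosure k Ω) (KfL (Ω := Ω) k x) Ω (Ab Ω U) :=
      (mem_maxU hrat hL hle hu hHyp.conj z).symm
    rw [h1]
    let e : KfL (Ω := Ω) k x ≃+* geomF k F Ω :=
      { toFun := fun w => ⟨w.1, w.2⟩
        invFun := fun w => ⟨w.1, w.2⟩
        left_inv := fun w => rfl
        right_inv := fun w => rfl
        map_mul' := fun w w' => rfl
        map_add' := fun w w' => rfl }
    refine maxU_congr (Ab Ω U) e (fun a => rfl) (fun W => ⟨fun h c => ?_, fun h c => ?_⟩) z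
    · exact Pool.Agent.W620.SC.const_mem h c.2
    · exact h (algebraMap k (algebraicClosure k Ω) c)
  let eqv : MFU ℓ (algebraicClosure k Ω) (Ab Ω U) L ≃+* proU ℓ k F Ω U :=
    { toFun := fun w => ⟨w.1, (hMN _).1 w.2⟩
      invFun := fun w => ⟨w.1, (hMN _).2 w.2⟩
      left_inv := fun w => rfl
      right_inv := fun w => rfl
      map_mul' := fun w w' => rfl
      map_add' := fun w w' => rfl }
  have heqv : ∀ w : MFU ℓ (algebraicClosure k Ω) (Ab Ω U) L,
    ((eqv w : proU ℓ k F Ω U) : Ω) = (w : Ω) := fun w => rfl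
  obtain ⟨O, hO, hOun, hdich, hramb⟩ := geoU hBase hHyp hGood eqv x (Subtype.ext rfl)
    (fun c => Subtype.ext (IsScalarTower.algebraMap_apply k F Ω c)) S
    (fun z => cont_fix S hcont z) (fun σ c => Subtype.ext (hcompat σ c _ rfl))
  have hae : ∀ p : (algebraicClosure k Ω)[X], ((eqv (aeval (algebraMap (ratL (Ω := Ω) k x)
      (MFU ℓ (algebraicClosure k Ω) (Ab Ω U) L)
      ⟨algebraMap F Ω x, IntermediateField.mem_adjoin_simple_self _ _⟩) p) : proU ℓ k F Ω U) : Ω) =
      aeval (algebraMap F Ω x) p := by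
    intro p
    rw [heqv]
    haveI : IsScalarTower (algebraicClosure k Ω) (MFU ℓ (algebraicClosure k Ω) (Ab Ω U) L) Ω :=
      IsScalarTower.of_algebraMap_eq fun c => rfl
    have h1 := aeval_algebraMap_apply (A := MFU ℓ (algebraicClosure k Ω) (Ab Ω U) L) Ω
      (algebraMap (ratL (Ω := Ω) k x) (MFU ℓ (algebraicClosure k Ω) (Ab Ω U) L)
      ⟨algebraMap F Ω x, IntermediateField.mem_adjoin_simple_self _ _⟩) p
    exact h1.symm
  have hG : ∀ O : ValuationSubring (proU ℓ k F Ω U), ((∀ c : algebraicClosure k Ω,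
      eqv (algebraMap (algebraicClosure k Ω) (MFU ℓ (algebraicClosure k Ω) (Ab Ω U) L) c) ∈ O ↔
        c ∈ V) ∧
      ∀ p : (algebraicClosure k Ω)[X], (∀ n, p.coeff n ∈ V) → (∃ n, IsU V (p.coeff n)) →
        IsU O (eqv (aeval (algebraMap (ratL (Ω := Ω) k x)
          (MFU ℓ (algebraicClosure k Ω) (Ab Ω U) L)
          ⟨algebraMap F Ω x, IntermediateField.mem_adjoin_simple_self _ _⟩) p))) ↔
      GaussP V x (proU ℓ k F Ω U) O := by
    intro O
    constructor
    · rintro ⟨a1, a2⟩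
      refine ⟨fun c z hz => ?_, fun p hp hp1 z hz => ?_⟩
      · have h1 : z = eqv (algebraMap (algebraicClosure k Ω) _ c) := Subtype.ext hz
        rw [h1]
        exact a1 c
      · have h1 := a2 p hp hp1
        have h2 : z = eqv (aeval (algebraMap (ratL (Ω := Ω) k x)
          (MFU ℓ (algebraicClosure k Ω) (Ab Ω U) L)
          ⟨algebraMap F Ω x, IntermediateField.mem_adjoin_simple_self _ _⟩) p) :=
          Subtype.ext (hz.trans (hae p).symm)
        rw [h2]
        exact h1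
    · rintro ⟨a1, a2⟩
      exact ⟨fun c => a1 c _ rfl, fun p hp hp1 => a2 p hp hp1 _ (hae p)⟩
  have hA : ∀ W : ValuationSubring (proU ℓ k F Ω U), Att eqv V S W ↔
      ((∀ c : k, algebraMap F (proU ℓ k F Ω U) (algebraMap k F c) ∈ W) ∧
        RamU ℓ k U x (proU ℓ k F Ω U) W) ∧ ∀ σ, Dec V σ → ∀ z, S σ z ∈ W ↔ z ∈ W := by
    intro W
    constructor
    · rintro ⟨a1, ⟨z, hz0, hzt⟩, a3⟩
      refine ⟨⟨fun c => ?_, z, z.2, hz0, fun t ht ht0 => ?_⟩, a3⟩
      · have h5 := a1 (algebraMap k (algebraicClosure k Ω) c)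
        have h6 : eqv (algebraMap (algebraicClosure k Ω) _
            (algebraMap k (algebraicClosure k Ω) c)) =
            algebraMap F (proU ℓ k F Ω U) (algebraMap k F c) :=
          Subtype.ext (IsScalarTower.algebraMap_apply k F Ω c)
        rwa [h6] at h5
      · exact hzt ⟨(t : Ω), ht⟩ (fun h => ht0 (Subtype.ext (show (t : Ω) = 0 from
          congrArg (fun w : ratL (Ω := Ω) k x => (w : Ω)) h)))
    · rintro ⟨⟨a1, z, -, hz0, hzt⟩, a3⟩
      refine ⟨fun c => const_mem_N _ W a1 c _ rfl, ⟨z, hz0, fun t ht => ?_⟩, a3⟩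
      refine hzt (eqv (algebraMap _ _ t)) t.2 ?_
      rw [Ne, map_eq_zero_iff _ eqv.injective, map_eq_zero]
      exact ht
  have hB : (∃ W : ValuationSubring (proU ℓ k F Ω U), (Att eqv V S W ∧
        ∀ z ∈ W, ∃ c : algebraicClosure k Ω, z - eqv (algebraMap _ _ c) ∈ W.nonunits) ∧
        ∀ W', Att eqv V S W' → W' = W) →
      ∃ W : ValuationSubring (proU ℓ k F Ω U),
          (((∀ c : k, algebraMap F (proU ℓ k F Ω U) (algebraMap k F c) ∈ W) ∧
            RamU ℓ k U x (proU ℓ k F Ω U) W) ∧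
            (∀ z ∈ W, ∃ c : algebraicClosure k Ω, ∃ z' ∈ W.nonunits, (z' : Ω) = (z : Ω) - c) ∧
            ∀ σ, Dec V σ → ∀ z, S σ z ∈ W ↔ z ∈ W) ∧
          ∀ W' : ValuationSubring (proU ℓ k F Ω U),
            ((∀ c : k, algebraMap F (proU ℓ k F Ω U) (algebraMap k F c) ∈ W') ∧
            RamU ℓ k U x (proU ℓ k F Ω U) W') →
            (∀ σ, Dec V σ → ∀ z, S σ z ∈ W' ↔ z ∈ W') → W' = W := by
    rintro ⟨W, ⟨hW, hres⟩, hWun⟩
    obtain ⟨b1, b3⟩ := (hA W).1 hW
    refine ⟨W, ⟨b1, fun z hz => ?_, b3⟩, fun W' c1 c3 => hWun W' ((hA W').2 ⟨c1, c3⟩)⟩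
    obtain ⟨c, hc⟩ := hres z hz
    exact ⟨c, _, hc, rfl⟩
  refine ⟨O, (hG O).1 hO, fun O' hO' => hOun O' ((hG O').2 hO'), ?_, ?_⟩
  · rcases hdich with h | h
    · exact Or.inl h
    · exact Or.inr (hB h)
  · rintro ⟨O', h1, h2, h3⟩
    exact hB (hramb O' h1 h2 h3)

end main

end Pool.Agent.H889.LM
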