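import Pool.Agent.H889.LM.MemU

/-!
# Levels above a level of positive genus
-/

set_option autoImplicit false
set_option linter.all false

open Polynomial FF

namespace Pool.Agent.H889.LM

open Pool.Agent.Y157.PS Pool.Agent.Y948.PS Pool.Agent.H889.PS

section cov

variable {κ R Ω : Type} [Field κ] [IsAlgClosed κ] [CharZero κ] [Field R] [Field Ω] [Algebra κ R]
  [Algebra R Ω] [Algebra κ Ω] [IsScalarTower κ R Ω] {x : R} {ℓ : ℕ} [Fact ℓ.Prime]
  {N0 Kf : IntermediateField R Ω} {P : ValuationSubring Ω → Prop} [IsAlgClosure R Ω]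

theorem unrLev_refl (N : IntermediateField R Ω) : UnrLev κ N N := fun W _ z hz hz0 =>
  ⟨z, hz, hz0, rfl⟩

/-- a subfield of a finite level which is normal over `R` is a level -/
theorem lev_sub {N M0 : IntermediateField R Ω} [CharZero R] (hN : Lev ℓ N) (h : M0 ≤ N)
    (hst : ∀ γ : Ω ≃ₐ[R] Ω, ∀ z ∈ M0, γ z ∈ M0) : Lev ℓ M0 := by
  haveI : IsAlgClosed Ω := IsAlgClosure.isAlgClosed R
  haveI := hN.fin
  haveI hnorm : Normal R M0 := by
    rw [IntermediateField.normal_iff_forall_map_le']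
    rintro σ _ ⟨z, hz, rfl⟩
    exact hst σ z hz
  haveI : FiniteDimensional R M0 :=
    FiniteDimensional.of_injective (IntermediateField.inclusion h).toLinearMap
      (IntermediateField.inclusion h).injective
  haveI : Algebra.IsSeparable R M0 := Algebra.IsAlgebraic.isSeparable_of_perfectField
  haveI : IsGalois R M0 := ⟨⟩
  refine ⟨inferInstance, inferInstance, ?_⟩
  obtain ⟨m, hm⟩ := hN.card
  have h1 : Module.finrank R M0 ∣ ℓ ^ m := by
    rw [← hm]
    letI : Algebra M0 N := (IntermediateField.inclusion h).toAlgebra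
    haveI : IsScalarTower R M0 N := IsScalarTower.of_algebraMap_eq fun r => rfl
    exact ⟨Module.finrank M0 N, (Module.finrank_mul_finrank R M0 N).symm⟩
  obtain ⟨j, -, hj⟩ := (Nat.dvd_prime_pow (Fact.out : ℓ.Prime)).1 h1
  exact ⟨j, hj⟩

theorem big_up (hx : RatF κ x) (hN : Lev ℓ N0) {N : IntermediateField R Ω} (hN' : Lev ℓ N)
    (hle : N0 ≤ N) (h : ∃ z, Mem ℓ κ N0 z ∧ z ∉ N0) : ∃ z, Mem ℓ κ N z ∧ z ∉ N := by
  haveI : CharZero R := charZero_of_injective_algebraMap (algebraMap κ R).injective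
  haveI : IsAlgClosed Ω := IsAlgClosure.isAlgClosed R
  by_contra hcon
  push Not at hcon
  have hM0 : MF ℓ κ N0 ≤ N := fun z hz => hcon z (Mem_mono hle hz)
  have hK : ∀ (γ : Ω ≃ₐ[R] Ω), ∀ t ∈ N0, γ t ∈ N0 := fun γ t ht => lev_stable hN γ t ht
  have hL : Lev ℓ (MF ℓ κ N0) := lev_sub hN' hM0 fun γ z hz => Mem.conj hK hz γ
  have hNM : N0 ≤ MF ℓ κ N0 := fun z hz =>
    ⟨Pro_lev hN z hz, fun W h1 h2 => Apx.of_mem hz⟩
  have hU := HU_lev (κ := κ) hx hN
  have hu : UnrLev κ N0 (MF ℓ κ N0) := by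
    intro W hκ z hz hz0
    by_cases hW : W = ⊤
    · refine ⟨1, one_mem _, one_ne_zero, ?_⟩
      rw [hW, map_one]
      exact (Pool.Agent.Y948.PS.isU_iff _).1 ⟨hz0, trivial, trivial⟩
    · obtain ⟨π, hπ⟩ := hU W hκ hW
      exact (hz.2 W hκ hW).val hπ hz0
  obtain ⟨z, hz, hz0⟩ := h
  obtain ⟨w, hw, hw'⟩ := big_of hx hL hNM hu (MF ℓ κ N0) (fun z => by
    rw [mem_maxPro hx hN le_rfl (unrLev_refl N0) z]
    rfl) ⟨z, hz, hz0⟩
  exact hw' hw

end cov

end Pool.Agent.H889.LM
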