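import Pool.Agent.H889.LM.Level
import Pool.Agent.H889.PS.Gex

/-!
# Compatibility of the valuation rings of different levels
-/

set_option autoImplicit false
set_option linter.all false

open Polynomial FF

namespace Pool.Agent.H889.LM

open Pool.Agent.Y157.PS Pool.Agent.Y948.PS Pool.Agent.H889.PS

theorem gauss_comap {κ M M' : Type} [Field κ] [Field M] [Field M'] [Algebra κ M] [Algebra κ M']
    (e : M' →+* M) (he : ∀ c : κ, e (algebraMap κ M' c) = algebraMap κ M c)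
    {V : ValuationSubring κ} {O : ValuationSubring M} (x' : M') (h : Gauss V (e x') O) :
    Gauss V x' (O.comap e) := by
  refine ⟨fun c => ?_, fun p hp hp1 => ?_⟩
  · rw [ValuationSubring.mem_comap, he]
    exact h.1 c
  · rw [comap_isU]
    have h1 : e (aeval x' p) = aeval (e x') p := by
      rw [aeval_def, hom_eval₂, aeval_def]
      congr 1
      ext c
      exact he c
    rw [h1]
    exact h.2 p hp hp1

theorem gauss_lift {κ M M' : Type} [Field κ] [Field M] [Field M'] [Algebra κ M] [Algebra κ M']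
    (e : M' →+* M) (he : ∀ c : κ, e (algebraMap κ M' c) = algebraMap κ M c)
    {V : ValuationSubring κ} {O : ValuationSubring M} (x' : M') (h : Gauss V x' (O.comap e)) :
    Gauss V (e x') O := by
  refine ⟨fun c => ?_, fun p hp hp1 => ?_⟩
  · rw [← he, ← ValuationSubring.mem_comap]
    exact h.1 c
  · have h1 : e (aeval x' p) = aeval (e x') p := by
      rw [aeval_def, hom_eval₂, aeval_def]
      congr 1
      ext c
      exact he c
    rw [← h1, ← comap_isU]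
    exact h.2 p hp hp1

section gcov

variable {κ R Ω : Type} [Field κ] [IsAlgClosed κ] [CharZero κ] [Field R] [Field Ω] [Algebra κ R]
  [Algebra R Ω] [Algebra κ Ω] [IsScalarTower κ R Ω] {x : R} {ℓ : ℕ} [Fact ℓ.Prime]
  {N0 : IntermediateField R Ω} {P : ValuationSubring Ω → Prop} [IsAlgClosure R Ω]
  {k : Type} [Field k] [Algebra k κ]

/-- the hypotheses on the first level and on the open set -/
structure Hyp (ℓ : ℕ) (κ : Type) {R Ω : Type} [Field κ] [Field R]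
    [Field Ω] [Algebra κ R] [Algebra R Ω] [Algebra κ Ω] [IsScalarTower κ R Ω]
    (x : R) (B : Finset κ)
    (P : ValuationSubring Ω → Prop) (N0 : IntermediateField R Ω) : Prop where
  rat : RatF κ x
  lev : Lev ℓ N0
  conj : ∀ (γ : Ω ≃ₐ[R] Ω) (W : ValuationSubring Ω), P W → P (W.comap (γ : Ω →+* Ω))
  out : ∀ W : ValuationSubring Ω, (∀ c : κ, algebraMap κ Ω c ∈ W) → algebraMap R Ω x ∈ W →
      (∀ e ∈ B, algebraMap R Ω x - algebraMap κ Ω e ∉ W.nonunits) → P W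
  unr : ∀ W : ValuationSubring Ω, (∀ c : κ, algebraMap κ Ω c ∈ W) → algebraMap R Ω x ∈ W →
      (∀ e ∈ B, algebraMap R Ω x - algebraMap κ Ω e ∉ W.nonunits) → ∀ z ∈ N0, z ≠ 0 →
        ∃ t : R, t ≠ 0 ∧ W.valuation z = W.valuation (algebraMap R Ω t)
  big : ∃ z, Mem ℓ κ N0 z ∧ z ∉ N0

theorem gcovN {B : Finset κ} (h : Hyp ℓ κ x B P N0) {N : IntermediateField R Ω}
    (hN : SL ℓ k κ x P N0 N) : ∃ (hNM : N ≤ MF ℓ κ N) (ε : κ → ℕ) (ι : ℕ),
      GCov ℓ κ R (MF ℓ κ N) x B ε ι (IntermediateField.restrict hNM) := by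
  haveI : CharZero R := charZero_of_injective_algebraMap (algebraMap κ R).injective
  haveI : IsAlgClosed Ω := IsAlgClosure.isAlgClosed R
  refine gcov h.rat hN.lev le_rfl (unrLev_refl N) B ?_ (MF ℓ κ N) ?_ ?_
  · intro W hκ hxW hnon z hz hz0
    by_cases hW : W = ⊤
    · refine ⟨1, one_ne_zero, ?_⟩
      rw [hW, map_one, map_one]
      exact (Pool.Agent.Y948.PS.isU_iff _).1 ⟨hz0, trivial, trivial⟩
    · obtain ⟨π, hπ⟩ := HU_lev (κ := κ) h.rat h.lev W hκ hW
      obtain ⟨t, ht, ht0, h1⟩ := ((hN.le z hz).2 W hκ hW (h.out W hκ hxW hnon)).val hπ hz0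
      obtain ⟨t', ht', h2⟩ := h.unr W hκ hxW hnon t ht ht0
      exact ⟨t', ht', h1.trans h2⟩
  · intro z
    rw [mem_maxPro h.rat hN.lev le_rfl (unrLev_refl N) z]
    rfl
  · exact big_up h.rat h.lev hN.lev hN.ge h.big

/-- the inclusion of a compactified level -/
def inU (hx : RatF κ x) {N : IntermediateField R Ω} (hN : SL ℓ k κ x P N0 N) :
    MF ℓ κ N →ₐ[R] MFU ℓ κ P N0 := IntermediateField.inclusion (MF_le hx hN)

theorem inU_coe (hx : RatF κ x) {N : IntermediateField R Ω} (hN : SL ℓ k κ x P N0 N)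
    (z : MF ℓ κ N) : ((inU hx hN z : MFU ℓ κ P N0) : Ω) = z := rfl

theorem secN_inU (hx : RatF κ x) {s : (κ ≃ₐ[k] κ) →* RingAut (MFU ℓ κ P N0)}
    (hs : GSec k κ R (MFU ℓ κ P N0) x s) {N : IntermediateField R Ω} (hN : SL ℓ k κ x P N0 N)
    (σ : κ ≃ₐ[k] κ) (w : MF ℓ κ N) : inU hx hN (secN hx hs hN σ w) = s σ (inU hx hN w) := by
  apply Subtype.ext
  rfl

theorem inU_const (hx : RatF κ x) {N : IntermediateField R Ω} (hN : SL ℓ k κ x P N0 N) (c : κ) :
    (inU hx hN : MF ℓ κ N →+* MFU ℓ κ P N0) (algebraMap κ (MF ℓ κ N) c) =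
      algebraMap κ (MFU ℓ κ P N0) c := by
  apply Subtype.ext
  rfl

theorem inU_x (hx : RatF κ x) {N : IntermediateField R Ω} (hN : SL ℓ k κ x P N0 N) (t : R) :
    (inU hx hN : MF ℓ κ N →+* MFU ℓ κ P N0) (algebraMap R (MF ℓ κ N) t) =
      algebraMap R (MFU ℓ κ P N0) t := by
  apply Subtype.ext
  rfl

end gcov

section compat

variable {A k κ R Ω : Type} [CommRing A] [IsDomain A]
    [IsDiscreteValuationRing A] [Field k] [Field κ] [Algebra A k] [Algebra k κ] [Algebra A κ]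
    [IsScalarTower A k κ] [IsFractionRing A k] [CharZero k] [IsAlgClosure k κ]
    [Finite (IsLocalRing.ResidueField A)] [IsAlgClosed κ] [CharZero κ]
    [Field R] [Field Ω] [Algebra κ R]
    [Algebra R Ω] [Algebra κ Ω] [IsScalarTower κ R Ω] {x : R} {ℓ : ℕ} [Fact ℓ.Prime]
    {N0 : IntermediateField R Ω} {P : ValuationSubring Ω → Prop} [IsAlgClosure R Ω]
    {V : ValuationSubring κ} {ϖ : A} {B : Finset κ}
    {s : (κ ≃ₐ[k] κ) →* RingAut (MFU ℓ κ P N0)} {O : ValuationSubring (MFU ℓ κ P N0)}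

theorem compat (hB : IB ℓ A k κ V ϖ) (h : Hyp ℓ κ x B P N0) (hGood : Good V B)
    (hs : GSec k κ R (MFU ℓ κ P N0) x s) (hO : Gauss V (algebraMap R (MFU ℓ κ P N0) x) O)
    {N N' : IntermediateField R Ω} (hN : SL ℓ k κ x P N0 N) (hN' : SL ℓ k κ x P N0 N')
    (hle : N ≤ N')
    (hbad : ∃ σ : κ ≃ₐ[k] κ, Ine V σ ∧ ∃ z : MF ℓ κ N, inU h.rat hN z ∈ O ∧
      s σ (inU h.rat hN z) - inU h.rat hN z ∉ O.nonunits)
    (Q' : ValuationSubring (MF ℓ κ N')) (hQ' : PN R V (secN h.rat hs hN') Q')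
    (hQγ : ∀ (σ : κ ≃ₐ[k] κ) (γ : MF ℓ κ N' ≃ₐ[R] MF ℓ κ N'), Ine V σ →
      Rel (O.comap (inU h.rat hN' : MF ℓ κ N' →+* MFU ℓ κ P N0)) (secN h.rat hs hN') σ γ →
        ∀ z, γ z ∈ Q' ↔ z ∈ Q') :
    ∃ hm : MF ℓ κ N ≤ MF ℓ κ N', PN R V (secN h.rat hs hN)
      (Q'.comap (IntermediateField.inclusion hm : MF ℓ κ N →+* MF ℓ κ N')) := by
  haveI : CharZero R := charZero_of_injective_algebraMap (algebraMap κ R).injective
  have hm : MF ℓ κ N ≤ MF ℓ κ N' := fun z hz => Mem_mono hle hz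
  obtain ⟨hNM, ε, ι, hC⟩ := gcovN h hN
  obtain ⟨hNM', ε', ι', hC'⟩ := gcovN h hN'
  have hsN' := secN_gsec h.rat hs hN'
  obtain ⟨O', hO'⟩ : ∃ O' : ValuationSubring (MF ℓ κ N'), O' =
    O.comap (inU h.rat hN' : MF ℓ κ N' →+* MFU ℓ κ P N0) := ⟨_, rfl⟩
  rw [← hO'] at hQγ
  have hG' : Gauss V (algebraMap R (MF ℓ κ N') x) O' := by
    rw [hO']
    exact gauss_comap _ (inU_const h.rat hN') _ (by rw [inU_x]; exact hO)
  have hu' : ∀ O'' : ValuationSubring (MF ℓ κ N'), Gauss V (algebraMap R (MF ℓ κ N') x) O'' →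
      O'' = O' := fun O'' g => gun hC' V hGood O'' O' g hG'
  obtain ⟨σ, hσ, z, hz, hzn⟩ := hbad
  obtain ⟨γ, hγ⟩ : ∃ γ, Rel O' (secN h.rat hs hN') σ γ := Rel.exists hC' hG' hu' hsN' hσ
  letI : Algebra (MF ℓ κ N) (MF ℓ κ N') := (IntermediateField.inclusion hm).toAlgebra
  haveI : IsScalarTower R (MF ℓ κ N) (MF ℓ κ N') := IsScalarTower.of_algebraMap_eq fun r => rfl
  haveI := hC.gal
  haveI := hC'.gal
  haveI : Normal R (MF ℓ κ N) := hC.gal.to_normal
  haveI halg' : Algebra.IsAlgebraic R (MF ℓ κ N') := inferInstance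
  obtain ⟨c, hc⟩ : ∃ c : MF ℓ κ N ≃ₐ[R] MF ℓ κ N, ∀ y : MF ℓ κ N,
      IntermediateField.inclusion hm (c y) = γ (IntermediateField.inclusion hm y) :=
    ⟨γ.restrictNormal (MF ℓ κ N), fun y => AlgEquiv.restrictNormal_commutes γ (MF ℓ κ N) y⟩
  have hin : ∀ y : MF ℓ κ N, inU h.rat hN' (IntermediateField.inclusion hm y) =
      inU h.rat hN y := fun y => Subtype.ext rfl
  refine ⟨hm, PN.of_stab hC ?_ ?_ ?_ c ?_ ?_⟩
  · intro a
    rw [ValuationSubring.mem_comap]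
    exact hQ'.1 a
  · intro htop
    apply hQ'.ne_top
    haveI : Algebra.IsAlgebraic (MF ℓ κ N) (MF ℓ κ N') := Algebra.IsAlgebraic.tower_top (K := R) _
    refine eq_top_of_alg (F := MF ℓ κ N) Q' fun y => ?_
    have h1 : y ∈ Q'.comap (IntermediateField.inclusion hm : MF ℓ κ N →+* MF ℓ κ N') := by
      rw [htop]; trivial
    exact h1
  · intro σ hσ y
    rw [ValuationSubring.mem_comap, ValuationSubring.mem_comap]
    have h1 : (IntermediateField.inclusion hm : MF ℓ κ N →+* MF ℓ κ N')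
        (secN h.rat hs hN σ y) = secN h.rat hs hN' σ (IntermediateField.inclusion hm y) :=
      Subtype.ext rfl
    rw [h1]
    exact hQ'.2.2 σ hσ _
  · rintro rfl
    apply hzn
    have h1 : IntermediateField.inclusion hm z ∈ O' := by
      rw [hO']
      exact hz
    have h2 := hγ _ h1
    rw [← hc z] at h2
    have h3 : (1 : MF ℓ κ N ≃ₐ[R] MF ℓ κ N) z = z := rfl
    rw [h3, hO'] at h2
    have h4 := (non_incl (inU h.rat hN' : MF ℓ κ N' →+* MFU ℓ κ P N0) O _).1 h2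
    rw [map_sub] at h4
    have h5 : (inU h.rat hN' : MF ℓ κ N' →+* MFU ℓ κ P N0)
        (secN h.rat hs hN' σ (IntermediateField.inclusion hm z)) = s σ (inU h.rat hN z) :=
      Subtype.ext rfl
    rw [h5] at h4
    rw [← neg_sub]
    exact non_neg h4
  · intro y
    rw [ValuationSubring.mem_comap, ValuationSubring.mem_comap]
    change IntermediateField.inclusion hm (c y) ∈ Q' ↔ IntermediateField.inclusion hm y ∈ Q'
    rw [hc]
    exact hQγ σ γ hσ hγ _

end compat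

end Pool.Agent.H889.LM
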