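import Pool.Agent.H889.LM.Compat
import Pool.Agent.H889.PS.Bad2

/-!
# The dichotomy
-/

set_option autoImplicit false
set_option linter.all false

open Polynomial FF

namespace Pool.Agent.H889.LM

open Pool.Agent.Y157.PS Pool.Agent.Y948.PS Pool.Agent.H889.PS

section core

variable {A k κ R Ω : Type} [CommRing A] [IsDomain A]
    [IsDiscreteValuationRing A] [Field k] [Field κ] [Algebra A k] [Algebra k κ] [Algebra A κ]
    [IsScalarTower A k κ] [IsFractionRing A k] [CharZero k] [IsAlgClosure k κ]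
    [Finite (IsLocalRing.ResidueField A)] [IsAlgClosed κ] [CharZero κ]
    [Field R] [Field Ω] [Algebra κ R]
    [Algebra R Ω] [Algebra κ Ω] [IsScalarTower κ R Ω] {x : R} {ℓ : ℕ} [Fact ℓ.Prime]
    {N0 : IntermediateField R Ω} {P : ValuationSubring Ω → Prop} [IsAlgClosure R Ω]
    {V : ValuationSubring κ} {ϖ : A} {B : Finset κ}
    {s : (κ ≃ₐ[k] κ) →* RingAut (MFU ℓ κ P N0)} {O : ValuationSubring (MFU ℓ κ P N0)}

omit [IsAlgClosed κ] [CharZero κ] in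
theorem alg_k (k κ : Type) [Field k] [Field κ] [Algebra k κ] [IsAlgClosure k κ] :
    Algebra.IsAlgebraic k κ := IsAlgClosure.isAlgebraic

omit [CharZero κ] in
theorem N0_le (h : Hyp ℓ κ x B P N0) [CharZero κ] : ∀ z ∈ N0, MemU ℓ κ P N0 z := by
  haveI : CharZero R := charZero_of_injective_algebraMap (algebraMap κ R).injective
  haveI : IsAlgClosed Ω := IsAlgClosure.isAlgClosed R
  exact fun z hz => ⟨Pro_lev h.lev z hz, fun W h1 h2 _ => Apx.of_mem hz⟩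

theorem gauss_comapN (h : Hyp ℓ κ x B P N0)
    (hO : Gauss V (algebraMap R (MFU ℓ κ P N0) x) O) {N : IntermediateField R Ω}
    (hN : SL ℓ k κ x P N0 N) :
    Gauss V (algebraMap R (MF ℓ κ N) x)
      (O.comap (inU h.rat hN : MF ℓ κ N →+* MFU ℓ κ P N0)) :=
  gauss_comap _ (inU_const h.rat hN) _ (by rw [inU_x]; exact hO)

/-- the Gauss valuation has only one prolongation -/
theorem gunU (hB : IB ℓ A k κ V ϖ) (h : Hyp ℓ κ x B P N0) (hGood : Good V B)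
    (hO : Gauss V (algebraMap R (MFU ℓ κ P N0) x) O) (O' : ValuationSubring (MFU ℓ κ P N0))
    (hO' : Gauss V (algebraMap R (MFU ℓ κ P N0) x) O') : O' = O := by
  ext z
  obtain ⟨N, hN, hzN, -⟩ := exists_SL k (alg_k k κ) h.rat h.lev h.conj N0 h.lev (N0_le h) (z : Ω) z.2
  obtain ⟨hNM, ε, ι, hC⟩ := gcovN h hN
  have h1 := gun hC V hGood _ _ (gauss_comapN h hO' hN) (gauss_comapN h hO hN)
  have h2 : (⟨(z : Ω), hNM hzN⟩ : MF ℓ κ N) ∈
      O'.comap (inU h.rat hN : MF ℓ κ N →+* MFU ℓ κ P N0) ↔ (⟨(z : Ω), hNM hzN⟩ : MF ℓ κ N) ∈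
      O.comap (inU h.rat hN : MF ℓ κ N →+* MFU ℓ κ P N0) := by rw [h1]
  exact h2

/-- the Gauss valuation has a prolongation -/
theorem gexU (hB : IB ℓ A k κ V ϖ) (h : Hyp ℓ κ x B P N0) (hGood : Good V B) :
    ∃ O : ValuationSubring (MFU ℓ κ P N0), Gauss V (algebraMap R (MFU ℓ κ P N0) x) O := by
  obtain ⟨N, hN, -, -⟩ := exists_SL k (alg_k k κ) h.rat h.lev h.conj N0 h.lev (N0_le h) (0 : Ω)
    (N0_le h 0 (zero_mem _))
  obtain ⟨hNM, ε, ι, hC⟩ := gcovN h hN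
  obtain ⟨F0, iF0, r, hr, ⟨D⟩⟩ := a_ndisc A k κ V hB.mem hB.non ℓ hB.lunit
  obtain ⟨O1, hO1⟩ := gauss_exists hC hr hGood D
  letI : Algebra (MF ℓ κ N) (MFU ℓ κ P N0) := (inU h.rat hN).toAlgebra
  obtain ⟨O, hO⟩ := a_extv (MF ℓ κ N) (MFU ℓ κ P N0) O1
  refine ⟨O, ?_⟩
  have h1 : algebraMap R (MFU ℓ κ P N0) x =
      (inU h.rat hN : MF ℓ κ N →+* MFU ℓ κ P N0) (algebraMap R (MF ℓ κ N) x) :=
    (inU_x h.rat hN x).symm
  rw [h1]
  refine gauss_lift _ (inU_const h.rat hN) _ ?_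
  have h2 : O.comap (inU h.rat hN : MF ℓ κ N →+* MFU ℓ κ P N0) = O1 := hO
  rw [h2]
  exact hO1

/-- the valuation ring at the level `N` -/
theorem levelN (hB : IB ℓ A k κ V ϖ) (h : Hyp ℓ κ x B P N0) (hGood : Good V B)
    (hs : GSec k κ R (MFU ℓ κ P N0) x s) (hO : Gauss V (algebraMap R (MFU ℓ κ P N0) x) O)
    {N : IntermediateField R Ω} (hN : SL ℓ k κ x P N0 N)
    (hbad : ∃ σ : κ ≃ₐ[k] κ, Ine V σ ∧ ∃ z : MF ℓ κ N, inU h.rat hN z ∈ O ∧
      s σ (inU h.rat hN z) - inU h.rat hN z ∉ O.nonunits) :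
    ∃ Q : ValuationSubring (MF ℓ κ N), PN R V (secN h.rat hs hN) Q ∧
      (∀ (σ : κ ≃ₐ[k] κ) (γ : MF ℓ κ N ≃ₐ[R] MF ℓ κ N), Ine V σ →
        Rel (O.comap (inU h.rat hN : MF ℓ κ N →+* MFU ℓ κ P N0)) (secN h.rat hs hN) σ γ →
          ∀ z, γ z ∈ Q ↔ z ∈ Q) ∧
      ∀ Q' : ValuationSubring (MF ℓ κ N), PN R V (secN h.rat hs hN) Q' → Q' = Q := by
  obtain ⟨hNM, ε, ι, hC⟩ := gcovN h hN
  refine level hB hC hGood (secN_gsec h.rat hs hN) (gauss_comapN h hO hN) ?_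
  obtain ⟨σ, hσ, z, hz, hzn⟩ := hbad
  refine ⟨σ, hσ, z, hz, fun hn => hzn ?_⟩
  have h1 := (non_incl (inU h.rat hN : MF ℓ κ N →+* MFU ℓ κ P N0) O _).1 hn
  rw [map_sub] at h1
  exact h1

/-- **the dichotomy**: if inertia does not act trivially on the residue field of the Gauss
valuation, then the section belongs to exactly one valuation ring ramified over `κ(x)` -/
theorem core (hB : IB ℓ A k κ V ϖ) (h : Hyp ℓ κ x B P N0) (hGood : Good V B)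
    (hs : GSec k κ R (MFU ℓ κ P N0) x s) (hO : Gauss V (algebraMap R (MFU ℓ κ P N0) x) O)
    (hbad : ∃ σ : κ ≃ₐ[k] κ, Ine V σ ∧ ∃ z ∈ O, s σ z - z ∉ O.nonunits) :
    ∃ W : ValuationSubring (MFU ℓ κ P N0), PN R V s W ∧
      ∀ W' : ValuationSubring (MFU ℓ κ P N0), PN R V s W' → W' = W := by
  classical
  obtain ⟨σ₀, hσ₀, z₀, hz₀, hzn₀⟩ := hbad
  have hka := alg_k k κ
  obtain ⟨N1, hN1, hz₀N1, -⟩ := exists_SL k hka h.rat h.lev h.conj N0 h.lev (N0_le h) (z₀ : Ω) z₀.2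
  -- stable levels with two given elements
  have hex : ∀ (N : IntermediateField R Ω), SL ℓ k κ x P N0 N → ∀ a b : MFU ℓ κ P N0,
      ∃ N' : IntermediateField R Ω, SL ℓ k κ x P N0 N' ∧ N ≤ N' ∧ (a : Ω) ∈ N' ∧ (b : Ω) ∈ N' := by
    intro N hN a b
    obtain ⟨N2, hN2, ha, h2⟩ := exists_SL k hka h.rat h.lev h.conj N hN.lev hN.le (a : Ω) a.2
    obtain ⟨N3, hN3, hb, h3⟩ := exists_SL k hka h.rat h.lev h.conj N2 hN2.lev hN2.le (b : Ω) b.2
    exact ⟨N3, hN3, h2.trans h3, h3 ha, hb⟩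
  have hdir : ∀ N N' : IntermediateField R Ω, SL ℓ k κ x P N0 N → SL ℓ k κ x P N0 N' →
      ∃ N'' : IntermediateField R Ω, SL ℓ k κ x P N0 N'' ∧ N ≤ N'' ∧ N' ≤ N'' := by
    intro N N' hN hN'
    haveI : CharZero R := charZero_of_injective_algebraMap (algebraMap κ R).injective
    haveI := hN'.lev.fin
    obtain ⟨α, hα⟩ := Field.exists_primitive_element R N'
    obtain ⟨N'', hN'', ha, h2⟩ := exists_SL k hka h.rat h.lev h.conj N hN.lev hN.le (α : Ω)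
      (hN'.le _ α.2)
    refine ⟨N'', hN'', h2, fun y hy => ?_⟩
    have h3 : (⟨y, hy⟩ : N') ∈ IntermediateField.adjoin R {α} := by rw [hα]; trivial
    have h4 : (IntermediateField.adjoin R {α}).map N'.val ≤ N'' := by
      rw [IntermediateField.adjoin_map, IntermediateField.adjoin_le_iff]
      rintro _ ⟨w, hw, rfl⟩
      rw [Set.mem_singleton_iff] at hw
      rw [hw]
      exact ha
    exact h4 ⟨⟨y, hy⟩, h3, rfl⟩
  have hNM : ∀ N : IntermediateField R Ω, SL ℓ k κ x P N0 N → N ≤ MF ℓ κ N := by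
    intro N hN
    obtain ⟨hNM, -⟩ := gcovN h hN
    exact hNM
  -- the bad element at the level `N`
  have hbadN : ∀ (N : IntermediateField R Ω) (hN : SL ℓ k κ x P N0 N), N1 ≤ N →
      ∃ σ : κ ≃ₐ[k] κ, Ine V σ ∧ ∃ z : MF ℓ κ N, inU h.rat hN z ∈ O ∧
        s σ (inU h.rat hN z) - inU h.rat hN z ∉ O.nonunits := by
    intro N hN hle
    exact ⟨σ₀, hσ₀, ⟨(z₀ : Ω), hNM N hN (hle hz₀N1)⟩, hz₀, hzn₀⟩
  choose Q hQ hQγ hQu using fun (N : IntermediateField R Ω) (hN : SL ℓ k κ x P N0 N) (hle : N1 ≤ N) =>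
    levelN hB h hGood hs hO hN (hbadN N hN hle)
  -- compatibility
  have hcomp : ∀ (N N' : IntermediateField R Ω) (hN : SL ℓ k κ x P N0 N)
      (hN' : SL ℓ k κ x P N0 N') (hle : N1 ≤ N) (hle' : N1 ≤ N') (hNN : N ≤ N')
      (y : Ω) (hy : y ∈ MF ℓ κ N) (hy' : y ∈ MF ℓ κ N'),
      (⟨y, hy⟩ : MF ℓ κ N) ∈ Q N hN hle ↔ (⟨y, hy'⟩ : MF ℓ κ N') ∈ Q N' hN' hle' := by
    intro N N' hN hN' hle hle' hNN y hy hy'
    obtain ⟨hm, h1⟩ := compat hB h hGood hs hO hN hN' hNN (hbadN N hN hle) (Q N' hN' hle')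
      (hQ N' hN' hle') (hQγ N' hN' hle')
    rw [← hQu N hN hle _ h1]
    exact Iff.rfl
  have hcomp2 : ∀ (N N' : IntermediateField R Ω) (hN : SL ℓ k κ x P N0 N)
      (hN' : SL ℓ k κ x P N0 N') (hle : N1 ≤ N) (hle' : N1 ≤ N')
      (y : Ω) (hy : y ∈ MF ℓ κ N) (hy' : y ∈ MF ℓ κ N'),
      (⟨y, hy⟩ : MF ℓ κ N) ∈ Q N hN hle ↔ (⟨y, hy'⟩ : MF ℓ κ N') ∈ Q N' hN' hle' := by
    intro N N' hN hN' hle hle' y hy hy'
    obtain ⟨N2, hN2, h1, h2⟩ := hdir N N' hN hN'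
    have hy2 : y ∈ MF ℓ κ N2 := Mem_mono h1 hy
    rw [hcomp N N2 hN hN2 hle (hle.trans h1) h1 y hy hy2,
      hcomp N' N2 hN' hN2 hle' (hle.trans h1) h2 y hy' hy2]
  -- the union
  obtain ⟨mem, hmem⟩ : ∃ mem : MFU ℓ κ P N0 → Prop, ∀ y, mem y ↔
      ∃ (N : IntermediateField R Ω) (hN : SL ℓ k κ x P N0 N) (hle : N1 ≤ N)
        (hy : (y : Ω) ∈ MF ℓ κ N), (⟨(y : Ω), hy⟩ : MF ℓ κ N) ∈ Q N hN hle := ⟨_, fun y => Iff.rfl⟩
  have hmemN : ∀ (N : IntermediateField R Ω) (hN : SL ℓ k κ x P N0 N) (hle : N1 ≤ N)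
      (y : MFU ℓ κ P N0) (hy : (y : Ω) ∈ MF ℓ κ N),
      mem y ↔ (⟨(y : Ω), hy⟩ : MF ℓ κ N) ∈ Q N hN hle := by
    intro N hN hle y hy
    rw [hmem]
    constructor
    · rintro ⟨N', hN', hle', hy', h1⟩
      exact (hcomp2 N' N hN' hN hle' hle y hy' hy).1 h1
    · intro h1
      exact ⟨N, hN, hle, hy, h1⟩
  let W : ValuationSubring (MFU ℓ κ P N0) :=
    { carrier := {y | mem y}
      mul_mem' := by
        intro a b ha hb
        obtain ⟨N, hN, hle, haN, hbN⟩ := hex N1 hN1 a b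
        have hm := hNM N hN
        have ha' := (hmemN N hN hle a (hm haN)).1 ha
        have hb' := (hmemN N hN hle b (hm hbN)).1 hb
        exact (hmemN N hN hle (a * b) (mul_mem (hm haN) (hm hbN))).2 (mul_mem ha' hb')
      one_mem' := by
        obtain ⟨N, hN, hle, haN, -⟩ := hex N1 hN1 1 1
        exact (hmemN N hN hle 1 (hNM N hN haN)).2 (one_mem _)
      add_mem' := by
        intro a b ha hb
        obtain ⟨N, hN, hle, haN, hbN⟩ := hex N1 hN1 a b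
        have hm := hNM N hN
        have ha' := (hmemN N hN hle a (hm haN)).1 ha
        have hb' := (hmemN N hN hle b (hm hbN)).1 hb
        exact (hmemN N hN hle (a + b) (add_mem (hm haN) (hm hbN))).2 (add_mem ha' hb')
      zero_mem' := by
        obtain ⟨N, hN, hle, haN, -⟩ := hex N1 hN1 0 0
        exact (hmemN N hN hle 0 (hNM N hN haN)).2 (zero_mem _)
      neg_mem' := by
        intro a ha
        obtain ⟨N, hN, hle, haN, -⟩ := hex N1 hN1 a a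
        have hm := hNM N hN
        have ha' := (hmemN N hN hle a (hm haN)).1 ha
        exact (hmemN N hN hle (-a) (neg_mem (hm haN))).2 (neg_mem ha')
      mem_or_inv_mem' := by
        intro a
        obtain ⟨N, hN, hle, haN, -⟩ := hex N1 hN1 a a
        have hm := hNM N hN
        rcases (Q N hN hle).mem_or_inv_mem ⟨(a : Ω), hm haN⟩ with h1 | h1
        · exact Or.inl ((hmemN N hN hle a (hm haN)).2 h1)
        · exact Or.inr ((hmemN N hN hle a⁻¹ (inv_mem (hm haN))).2 h1) }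
  have hW : ∀ (N : IntermediateField R Ω) (hN : SL ℓ k κ x P N0 N) (hle : N1 ≤ N),
      W.comap (inU h.rat hN : MF ℓ κ N →+* MFU ℓ κ P N0) = Q N hN hle := by
    intro N hN hle
    ext y
    exact hmemN N hN hle (inU h.rat hN y) y.2
  refine ⟨W, ⟨?_, ?_, ?_⟩, ?_⟩
  · intro c
    have h1 := (hQ N1 hN1 le_rfl).1 c
    rw [← hW N1 hN1 le_rfl] at h1
    exact h1
  · obtain ⟨z, hz0, hzt⟩ := (hQ N1 hN1 le_rfl).2.1
    refine ⟨inU h.rat hN1 z, (_root_.map_ne_zero _).2 hz0, fun t ht hu => hzt t ht ?_⟩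
    rw [← hW N1 hN1 le_rfl, comap_isU]
    exact hu
  · intro σ hσ y
    obtain ⟨N, hN, hle, hyN, -⟩ := hex N1 hN1 y y
    have hyM := hNM N hN hyN
    have h1 := (hQ N hN hle).2.2 σ hσ ⟨(y : Ω), hyM⟩
    rw [← hW N hN hle] at h1
    exact h1
  · intro W' hW'
    obtain ⟨z, hz0, hzt⟩ := hW'.2.1
    ext y
    obtain ⟨N, hN, hle, hzN, hyN⟩ := hex N1 hN1 z y
    have hm := hNM N hN
    have h1 : PN R V (secN h.rat hs hN) (W'.comap (inU h.rat hN : MF ℓ κ N →+* MFU ℓ κ P N0)) := by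
      refine ⟨fun c => hW'.1 c, ⟨⟨(z : Ω), hm hzN⟩, ?_, fun t ht hu => hzt t ht ?_⟩, fun σ hσ w => ?_⟩
      · intro h0
        exact hz0 (Subtype.ext (congrArg (fun w : MF ℓ κ N => (w : Ω)) h0))
      · rw [comap_isU] at hu
        exact hu
      · exact hW'.2.2 σ hσ (inU h.rat hN w)
    have h2 := hQu N hN hle _ h1
    rw [← hW N hN hle] at h2
    have h3 : (⟨(y : Ω), hm hyN⟩ : MF ℓ κ N) ∈
        W'.comap (inU h.rat hN : MF ℓ κ N →+* MFU ℓ κ P N0) ↔ (⟨(y : Ω), hm hyN⟩ : MF ℓ κ N) ∈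
        W.comap (inU h.rat hN : MF ℓ κ N →+* MFU ℓ κ P N0) := by rw [h2]
    exact h3

/-- if the Gauss valuation is ramified, then inertia does not act trivially on the residue field -/
theorem badU (hB : IB ℓ A k κ V ϖ) (h : Hyp ℓ κ x B P N0) (hGood : Good V B)
    (hs : GSec k κ R (MFU ℓ κ P N0) x s) (hO : Gauss V (algebraMap R (MFU ℓ κ P N0) x) O)
    (z : MFU ℓ κ P N0) (hz0 : z ≠ 0) (hz : ∀ σ, s σ z = z)
    (hram : ∀ c : k, c ≠ 0 →
      ¬ IsU O (z / algebraMap κ (MFU ℓ κ P N0) (algebraMap k κ c))) :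
    ∃ σ : κ ≃ₐ[k] κ, Ine V σ ∧ ∃ z ∈ O, s σ z - z ∉ O.nonunits := by
  obtain ⟨N, hN, hzN, -⟩ := exists_SL k (alg_k k κ) h.rat h.lev h.conj N0 h.lev (N0_le h) (z : Ω) z.2
  obtain ⟨hNM, ε, ι, hC⟩ := gcovN h hN
  obtain ⟨σ, hσ, w, hw, hwn⟩ := bad hB hC hGood (secN_gsec h.rat hs hN) (gauss_comapN h hO hN)
    ⟨(z : Ω), hNM hzN⟩ (fun h0 => hz0 (Subtype.ext (congrArg (fun w : MF ℓ κ N => (w : Ω)) h0)))
    (fun σ => Subtype.ext (congrArg (fun w : MFU ℓ κ P N0 => (w : Ω)) (hz σ)))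
    (fun c hc hu => hram c hc (by
      rw [comap_isU, map_div₀] at hu
      exact hu))
  refine ⟨σ, hσ, inU h.rat hN w, hw, fun hn => hwn ?_⟩
  rw [non_incl, map_sub]
  exact hn

end core

end Pool.Agent.H889.LM
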