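import Pool.Agent.H889.LM.Ind

/-!
# The dichotomy: abstract form
-/

set_option autoImplicit false
set_option linter.all false

open Polynomial FF

namespace Pool.Agent.H889.LM

open Pool.Agent.Y157.PS Pool.Agent.Y948.PS Pool.Agent.H889.PS

theorem gauss_equiv {κ M N : Type} [Field κ] [Field M] [Field N] [Algebra κ M] (e : M ≃+* N)
    {V : ValuationSubring κ} {O : ValuationSubring N} (x : M) :
    Gauss V x (O.comap (e : M →+* N)) ↔ (∀ c : κ, e (algebraMap κ M c) ∈ O ↔ c ∈ V) ∧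
      ∀ p : κ[X], (∀ n, p.coeff n ∈ V) → (∃ n, IsU V (p.coeff n)) → IsU O (e (aeval x p)) := by
  constructor
  · rintro ⟨h1, h2⟩
    refine ⟨h1, fun p hp hp1 => ?_⟩
    have h3 := h2 p hp hp1
    rw [comap_isU] at h3
    exact h3
  · rintro ⟨h1, h2⟩
    refine ⟨h1, fun p hp hp1 => ?_⟩
    rw [comap_isU]
    exact h2 p hp hp1

section absU

variable {A k κ R Ω F N : Type} [CommRing A] [IsDomain A] [IsDiscreteValuationRing A]
    [Finite (IsLocalRing.ResidueField A)] [Field k] [CharZero k] [Algebra A k] [IsFractionRing A k]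
    [Field κ] [Algebra k κ] [Algebra A κ] [IsScalarTower A k κ] [IsAlgClosure k κ]
    [IsAlgClosed κ] [CharZero κ]
    [Field R] [Field F] [Field Ω] [Field N] [Algebra κ R] [Algebra R Ω] [Algebra κ Ω]
    [IsScalarTower κ R Ω] [IsAlgClosure R Ω] [Algebra F N] [Algebra k F]
    {B : Finset κ} {ℓ : ℕ} [Fact ℓ.Prime] {P : ValuationSubring Ω → Prop}
    {N0 : IntermediateField R Ω}

/-- a valuation ring of `N` over `κ`, ramified over `κ(x)`, fixed by the image of the decomposition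
group -/
def Att (eqv : MFU ℓ κ P N0 ≃+* N) (V : ValuationSubring κ) (S : (κ ≃ₐ[k] κ) →* (N ≃ₐ[F] N))
    (W : ValuationSubring N) : Prop :=
  (∀ c : κ, eqv (algebraMap κ _ c) ∈ W) ∧
  (∃ z : N, z ≠ 0 ∧ ∀ t : R, t ≠ 0 → ¬ IsU W (z / eqv (algebraMap R _ t))) ∧
  ∀ σ : κ ≃ₐ[k] κ, Dec V σ → ∀ z, S σ z ∈ W ↔ z ∈ W

theorem geoU {V : ValuationSubring κ} {ϖ : A} (hBase : IB ℓ A k κ V ϖ)
    {x' : R} (h : Hyp ℓ κ x' B P N0) (hGood : Good V B)
    (eqv : MFU ℓ κ P N0 ≃+* N) (x : F)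
    (hx : eqv (algebraMap R (MFU ℓ κ P N0) x') = algebraMap F N x)
    (hkF : ∀ c : k, eqv (algebraMap κ (MFU ℓ κ P N0) (algebraMap k κ c)) =
      algebraMap F N (algebraMap k F c))
    (S : (κ ≃ₐ[k] κ) →* (N ≃ₐ[F] N))
    (hcont : ∀ z : N, ∃ E : IntermediateField k κ, FiniteDimensional k E ∧
      ∀ σ ∈ E.fixingSubgroup, S σ z = z)
    (hcompat : ∀ σ c, S σ (eqv (algebraMap κ (MFU ℓ κ P N0) c)) =
      eqv (algebraMap κ (MFU ℓ κ P N0) (σ c))) :
    ∃ O : ValuationSubring N,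
      ((∀ c : κ, eqv (algebraMap κ (MFU ℓ κ P N0) c) ∈ O ↔ c ∈ V) ∧
        ∀ p : κ[X], (∀ n, p.coeff n ∈ V) → (∃ n, IsU V (p.coeff n)) →
          IsU O (eqv (aeval (algebraMap R (MFU ℓ κ P N0) x') p))) ∧
      (∀ O' : ValuationSubring N, ((∀ c : κ, eqv (algebraMap κ (MFU ℓ κ P N0) c) ∈ O' ↔ c ∈ V) ∧
        ∀ p : κ[X], (∀ n, p.coeff n ∈ V) → (∃ n, IsU V (p.coeff n)) →
          IsU O' (eqv (aeval (algebraMap R (MFU ℓ κ P N0) x') p))) → O' = O) ∧
      ((∀ σ, Ine V σ → ∀ z ∈ O, S σ z - z ∈ O.nonunits) ∨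
        ∃ W : ValuationSubring N, (Att eqv V S W ∧
          ∀ z ∈ W, ∃ c : κ, z - eqv (algebraMap κ _ c) ∈ W.nonunits) ∧
          ∀ W', Att eqv V S W' → W' = W) ∧
      ∀ O' : ValuationSubring F, (∀ p : A[X], (∃ n, IsUnit (p.coeff n)) →
        IsU O' (p.eval₂ ((algebraMap k F).comp (algebraMap A k)) x)) →
        (∀ a ∈ IsLocalRing.maximalIdeal A, algebraMap k F (algebraMap A k a) ∈ O'.nonunits) →
        (∃ z₀ : F, z₀ ≠ 0 ∧ ∀ c : k, c ≠ 0 → ¬ IsU O' (z₀ / algebraMap k F c)) →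
        ∃ W : ValuationSubring N, (Att eqv V S W ∧
          ∀ z ∈ W, ∃ c : κ, z - eqv (algebraMap κ _ c) ∈ W.nonunits) ∧
          ∀ W', Att eqv V S W' → W' = W := by
  classical
  let M := MFU ℓ κ P N0
  haveI : CharZero R := charZero_of_injective_algebraMap (algebraMap κ R).injective
  haveI : IsAlgClosed Ω := IsAlgClosure.isAlgClosed R
  let s' : (κ ≃ₐ[k] κ) →* RingAut M := conjSec eqv S
  have hs' : ∀ σ z, eqv (s' σ z) = S σ (eqv z) := fun σ z => conjSec_apply eqv S σ z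
  have hs'2 : ∀ σ z, eqv.symm (S σ z) = s' σ (eqv.symm z) := by
    intro σ z
    apply eqv.injective
    rw [hs', eqv.apply_symm_apply, eqv.apply_symm_apply]
  have hconst : ∀ σ c, s' σ (algebraMap κ M c) = algebraMap κ M (σ c) := by
    intro σ c
    apply eqv.injective
    rw [hs', hcompat]
  have hbase : ∀ σ (z : F) (w : M), eqv w = algebraMap F N z → s' σ w = w := by
    intro σ z w hw
    apply eqv.injective
    rw [hs', hw]
    exact (S σ).commutes z
  have hSec : GSec k κ R M x' s' := by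
    refine ⟨hconst, fun σ => hbase σ x _ hx, fun z => ?_⟩
    obtain ⟨E, hE, hE'⟩ := hcont (eqv z)
    refine ⟨E, hE, fun σ hσ => eqv.injective ?_⟩
    rw [hs', hE' σ hσ]
  obtain ⟨O, hO⟩ := gexU hBase h hGood
  have hOe : (O.comap (eqv.symm : N →+* M)).comap (eqv : M →+* N) = O := by
    ext z
    change eqv.symm (eqv z) ∈ O ↔ z ∈ O
    rw [eqv.symm_apply_apply]
  -- the valuation ring attached to the section
  have hcore : (∃ σ : κ ≃ₐ[k] κ, Ine V σ ∧ ∃ z ∈ O, s' σ z - z ∉ O.nonunits) →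
      ∃ W : ValuationSubring N, (Att eqv V S W ∧
        ∀ z ∈ W, ∃ c : κ, z - eqv (algebraMap κ _ c) ∈ W.nonunits) ∧
        ∀ W', Att eqv V S W' → W' = W := by
    intro hbad
    obtain ⟨W, hW, hWun⟩ := core hBase h hGood hSec hO hbad
    have hmem : ∀ z : N, z ∈ W.comap (eqv.symm : N →+* M) ↔ eqv.symm z ∈ W := fun z => Iff.rfl
    refine ⟨W.comap (eqv.symm : N →+* M), ⟨⟨?_, ?_, ?_⟩, ?_⟩, ?_⟩
    · intro c
      rw [hmem, eqv.symm_apply_apply]
      exact hW.1 c
    · obtain ⟨z, hz0, hzt⟩ := hW.2.1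
      refine ⟨eqv z, (map_ne_zero_iff _ eqv.injective).2 hz0, fun t ht hu => hzt t ht ?_⟩
      rw [← map_div₀, comap_isU] at hu
      have h3 : ((eqv.symm : N →+* M)) (eqv (z / algebraMap R M t)) = z / algebraMap R M t :=
        eqv.symm_apply_apply _
      rw [h3] at hu
      exact hu
    · intro σ hσ z
      rw [hmem, hmem, hs'2]
      exact hW.2.2 σ hσ _
    · intro z hz
      rw [hmem] at hz
      obtain ⟨W', hW'⟩ := a_extv M Ω W
      have hm : ∀ z : M, (z : Ω) ∈ W' ↔ z ∈ W := by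
        intro z
        rw [← hW']
        rfl
      have htop : W' ≠ ⊤ := by
        rintro rfl
        apply hW.ne_top
        ext y
        exact ⟨fun _ => trivial, fun _ => (hm y).1 trivial⟩
      obtain ⟨c, hc⟩ := Pool.Agent.Y948.PS.res h.rat W' (fun c => (hm (algebraMap κ M c)).2 (hW.1 c))
        htop ((hm _).2 hz)
      refine ⟨c, ?_⟩
      rw [comap_non, map_sub, eqv.symm_apply_apply]
      have h5 : W'.comap (algebraMap M Ω) = W := hW'
      rw [← h5, non_incl]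
      exact (ValuationSubring.mem_nonunits_iff _).2 hc
    · rintro W' ⟨a1, a2, a3⟩
      have h1 : PN R V s' (W'.comap (eqv : M →+* N)) := by
        refine ⟨a1, ?_, ?_⟩
        · obtain ⟨z, hz0, hzt⟩ := a2
          refine ⟨eqv.symm z, (map_ne_zero_iff _ eqv.symm.injective).2 hz0, fun t ht hu =>
            hzt t ht ?_⟩
          rw [comap_isU, map_div₀] at hu
          have h3 : ((eqv : M →+* N)) (eqv.symm z) = z := eqv.apply_symm_apply _
          rw [h3] at hu
          exact hu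
        · intro σ hσ z
          change eqv (s' σ z) ∈ W' ↔ eqv z ∈ W'
          rw [hs']
          exact a3 σ hσ _
      have h2 := hWun _ h1
      ext z
      rw [hmem, ← h2]
      change z ∈ W' ↔ eqv (eqv.symm z) ∈ W'
      rw [eqv.apply_symm_apply]
  refine ⟨O.comap (eqv.symm : N →+* M), (gauss_equiv eqv _).1 (by rw [hOe]; exact hO), ?_, ?_, ?_⟩
  · intro O' hO'
    have h1 := gunU hBase h hGood hO _ ((gauss_equiv eqv _).2 hO')
    rw [← h1]
    ext z
    change z ∈ O' ↔ eqv (eqv.symm z) ∈ O'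
    rw [eqv.apply_symm_apply]
  · by_cases hbad : ∃ σ : κ ≃ₐ[k] κ, Ine V σ ∧ ∃ z ∈ O, s' σ z - z ∉ O.nonunits
    · exact Or.inr (hcore hbad)
    · left
      push Not at hbad
      intro σ hσ z hz
      have h1 := hbad σ hσ (eqv.symm z) hz
      rw [comap_non, map_sub, hs'2]
      exact h1
  · rintro O' h1 h2 ⟨z₀, hz₀, hram⟩
    apply hcore
    let i : F →+* M := (eqv.symm : N →+* M).comp (algebraMap F N)
    have hi : ∀ z, eqv (i z) = algebraMap F N z := fun z => eqv.apply_symm_apply _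
    obtain ⟨O₁, hO₁, hOF⟩ := gauss_desc hBase i (fun c => eqv.injective (by rw [hi, hkF])) x
      (eqv.injective (by rw [hi, hx])) hSec (fun σ z => hbase σ z _ (hi z)) O' h1 h2
    have hOO : O₁ = O := gunU hBase h hGood hO O₁ hO₁
    subst hOO
    refine badU hBase h hGood hSec hO (i z₀) ((_root_.map_ne_zero i).2 hz₀)
      (fun σ => hbase σ z₀ _ (hi z₀)) ?_
    intro c hc hu
    apply hram c hc
    have h3 : i z₀ / algebraMap κ M (algebraMap k κ c) = i (z₀ / algebraMap k F c) := by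
      rw [map_div₀]
      congr 1
      apply eqv.injective
      rw [hi, hkF]
    rw [h3] at hu
    refine ⟨(_root_.map_ne_zero i).1 hu.1, (hOF _).1 hu.2.1, ?_⟩
    rw [← hOF, map_inv₀]
    exact hu.2.2

end absU

end Pool.Agent.H889.LM
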