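import Pool.Agent.H889.LM.GeoB

/-! # Sections of larger quotients of the fundamental group -/

set_option autoImplicit false
set_option linter.all false

open Polynomial FF

namespace Pool.Agent.H889.LM

open Pool.Agent.Y157.PS Pool.Agent.Y948.PS Pool.Agent.H889.PS

section ram

variable {k F Ω : Type} [Field k] [Field F] [Field Ω] [Algebra k F]
  [Algebra F Ω] [Algebra k Ω] [IsScalarTower k F Ω] {U : Set (ValuationSubring F)} {ℓ : ℕ}

theorem ramU_up {x : F} {N M : IntermediateField F Ω} (h : N ≤ M) (hN : proU ℓ k F Ω U ≤ N)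
    (W : ValuationSubring M)
    (hW : RamU ℓ k U x N (W.comap ((IntermediateField.inclusion h : N →ₐ[F] M) : N →+* M))) :
    RamU ℓ k U x M W := by
  obtain ⟨z, hz, hz0, hzt⟩ := hW
  refine ⟨IntermediateField.inclusion h z, hz, (_root_.map_ne_zero _).2 hz0, fun t ht ht0 => ?_⟩
  have htN : (t : Ω) ∈ N := hN (geomF_le_proU ℓ U (rat_le_geom k x _ ht))
  have h1 := hzt ⟨(t : Ω), htN⟩ ht (fun h0 => ht0 (Subtype.ext (show (t : Ω) = 0 from
    congrArg (fun w : N => (w : Ω)) h0)))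
  rw [comap_isU, map_div₀] at h1
  exact h1

theorem ramU_down {x : F} {N M : IntermediateField F Ω} (h : N ≤ M) (hN : proU ℓ k F Ω U ≤ N)
    (W : ValuationSubring M) (hW : RamU ℓ k U x M W) :
    RamU ℓ k U x N (W.comap ((IntermediateField.inclusion h : N →ₐ[F] M) : N →+* M)) := by
  obtain ⟨z, hz, hz0, hzt⟩ := hW
  have hzN : (z : Ω) ∈ N := hN hz
  refine ⟨⟨(z : Ω), hzN⟩, hz, fun h0 => hz0 (Subtype.ext (show (z : Ω) = 0 from
    congrArg (fun w : N => (w : Ω)) h0)), fun t ht ht0 => ?_⟩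
  have h1 := hzt (IntermediateField.inclusion h t) ht ((_root_.map_ne_zero _).2 ht0)
  rw [comap_isU, map_div₀]
  exact h1

theorem gaussP_iff {x : F} {N M : IntermediateField F Ω} (h : N ≤ M) (hN : proU ℓ k F Ω U ≤ N)
    (V : ValuationSubring (algebraicClosure k Ω)) (O : ValuationSubring M) :
    GaussP V x M O ↔
      GaussP V x N (O.comap ((IntermediateField.inclusion h : N →ₐ[F] M) : N →+* M)) := by
  have hc : ∀ c : algebraicClosure k Ω, (c : Ω) ∈ N := fun c =>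
    hN (geomF_le_proU ℓ U (IntermediateField.subset_adjoin F _ c.2))
  have hp : ∀ p : (algebraicClosure k Ω)[X], aeval (algebraMap F Ω x) p ∈ N := fun p =>
    hN (geomF_le_proU ℓ U (rat_le_geom k x _ (by
      have h0 : algebraMap F Ω x ∈ ratL (Ω := Ω) k x :=
        IntermediateField.mem_adjoin_simple_self _ _
      have h1 := aeval_algebraMap_apply (A := ratL (Ω := Ω) k x) Ω
        (⟨algebraMap F Ω x, h0⟩ : ratL (Ω := Ω) k x) p
      have h2 : algebraMap (ratL (Ω := Ω) k x) Ω ⟨algebraMap F Ω x, h0⟩ = algebraMap F Ω x := rfl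
      rw [h2] at h1
      rw [h1]
      exact (aeval (⟨algebraMap F Ω x, h0⟩ : ratL (Ω := Ω) k x) p).2)))
  constructor
  · rintro ⟨a1, a2⟩
    refine ⟨fun c z hz => a1 c (IntermediateField.inclusion h z) hz, fun p h1 h2 z hz => ?_⟩
    rw [comap_isU]
    exact a2 p h1 h2 (IntermediateField.inclusion h z) hz
  · rintro ⟨a1, a2⟩
    refine ⟨fun c z hz => a1 c ⟨(z : Ω), hz ▸ hc c⟩ hz, fun p h1 h2 z hz => ?_⟩
    have h3 := a2 p h1 h2 ⟨(z : Ω), hz ▸ hp p⟩ hz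
    rw [comap_isU] at h3
    exact h3

end ram

section main

variable {A k F Ω : Type} [CommRing A] [IsDomain A] [IsDiscreteValuationRing A]
    [Finite (IsLocalRing.ResidueField A)] [Field k] [CharZero k] [Algebra A k] [IsFractionRing A k]
    [Field F] [Field Ω] [Algebra k F] [Algebra F Ω] [Algebra k Ω] [IsScalarTower k F Ω]
    [IsAlgClosed Ω] [Algebra.IsAlgebraic F Ω]

/-- the second alternative -/
def BB (ℓ : ℕ) (V : ValuationSubring (algebraicClosure k Ω)) (x : F)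
    (U : Set (ValuationSubring F)) (M : IntermediateField F Ω)
    (S : (algebraicClosure k Ω ≃ₐ[k] algebraicClosure k Ω) →* (M ≃ₐ[F] M)) : Prop :=
  ∃ W : ValuationSubring M,
      (((∀ c : k, algebraMap F M (algebraMap k F c) ∈ W) ∧
       RamU ℓ k U x M W ∧
       (∀ z : F, algebraMap F M z ∈ W → ∃ c : algebraicClosure k Ω,
          (∀ σ : algebraicClosure k Ω ≃ₐ[k] algebraicClosure k Ω, Dec V σ → σ c = c) ∧
          ∃ z' ∈ W.nonunits, (z' : Ω) = algebraMap F Ω z - c) ∧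
       (∀ z : M, (z : Ω) ∈ proU ℓ k F Ω U → z ∈ W → ∃ c : algebraicClosure k Ω,
          ∃ z' ∈ W.nonunits, (z' : Ω) = (z : Ω) - c)) ∧
       ∀ σ : algebraicClosure k Ω ≃ₐ[k] algebraicClosure k Ω, Dec V σ →
        ∀ z : M, (z : Ω) ∈ proU ℓ k F Ω U → (S σ z ∈ W ↔ z ∈ W)) ∧
      ∀ W' : ValuationSubring M,
        (∀ c : k, algebraMap F M (algebraMap k F c) ∈ W') →
        RamU ℓ k U x M W' →
        (∀ σ : algebraicClosure k Ω ≃ₐ[k] algebraicClosure k Ω, Dec V σ →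
          ∀ z : M, (z : Ω) ∈ proU ℓ k F Ω U → (S σ z ∈ W' ↔ z ∈ W')) →
        ∀ z : M, (z : Ω) ∈ proU ℓ k F Ω U → (z ∈ W' ↔ z ∈ W)

theorem numU {ℓ : ℕ} [Fact ℓ.Prime]
    (V : ValuationSubring (algebraicClosure k Ω))
    (hVA : ∀ a : A, algebraMap k (algebraicClosure k Ω) (algebraMap A k a) ∈ V)
    (hVm : ∀ a ∈ IsLocalRing.maximalIdeal A,
      algebraMap k (algebraicClosure k Ω) (algebraMap A k a) ∈ V.nonunits)
    (hℓ : IsUnit (ℓ : A)) (f : A[X]) (hlc : IsUnit f.leadingCoeff)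
    (hs : (f.map (IsLocalRing.residue A)).Separable) (x : F) (hx : Transcendental k x)
    (U : Set (ValuationSubring F)) (hUk : ∀ O ∈ U, ∀ c : k, algebraMap k F c ∈ O)
    (hUsat : ∀ O ∈ U, ∀ O' : ValuationSubring F, (∀ c : k, algebraMap k F c ∈ O') →
      (∀ r ∈ IntermediateField.adjoin k {x}, r ∈ O' ↔ r ∈ O) → O' ∈ U)
    (hUf : ∀ O : ValuationSubring F, O ≠ ⊤ → (∀ c : k, algebraMap k F c ∈ O) → x ∈ O →
      aeval x (f.map (algebraMap A k)) ∉ O.nonunits → O ∈ U)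
    (L : IntermediateField (ratL (Ω := Ω) k x) Ω) (hL : Lev ℓ L)
    (hFL : ∀ z : F, algebraMap F Ω z ∈ L)
    (hLu : ∀ W : ValuationSubring Ω, (∀ c : k, algebraMap k Ω c ∈ W) →
      W.comap (algebraMap F Ω) ∈ U → ∀ z ∈ L, z ≠ 0 →
      ∃ t ∈ geomF k F Ω, t ≠ 0 ∧ IsU W (z / t))
    (hLf : ∀ W : ValuationSubring Ω, (∀ c : k, algebraMap k Ω c ∈ W) → algebraMap F Ω x ∈ W →
      algebraMap F Ω (aeval x (f.map (algebraMap A k))) ∉ W.nonunits → ∀ z ∈ L, z ≠ 0 →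
        ∃ t ∈ ratL (Ω := Ω) k x, t ≠ 0 ∧ IsU W (z / t))
    (hbig : ∃ z ∈ maxPro ℓ k L Ω, z ∉ L)
    (M : IntermediateField F Ω) (hM : proU ℓ k F Ω U ≤ M)
    (S : (algebraicClosure k Ω ≃ₐ[k] algebraicClosure k Ω) →* (M ≃ₐ[F] M)) (hcont : Continuous S)
    (hcompat : ∀ σ (c : algebraicClosure k Ω) (z : M), (z : Ω) = (c : Ω) →
      (S σ z : Ω) = (σ c : Ω)) :
    ∃ O : ValuationSubring M, GaussP V x M O ∧
      (∀ O' : ValuationSubring M, GaussP V x M O' →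
        ∀ z : M, (z : Ω) ∈ proU ℓ k F Ω U → (z ∈ O' ↔ z ∈ O)) ∧
      ((∀ σ, Ine V σ → ∀ z : M, (z : Ω) ∈ proU ℓ k F Ω U → z ∈ O → S σ z - z ∈ O.nonunits) ∨
        BB ℓ V x U M S) ∧
      ((∃ O' : ValuationSubring F, (∀ p : A[X], (∃ n, IsUnit (p.coeff n)) →
        IsU O' (p.eval₂ ((algebraMap k F).comp (algebraMap A k)) x)) ∧
        (∀ a ∈ IsLocalRing.maximalIdeal A, algebraMap k F (algebraMap A k a) ∈ O'.nonunits) ∧
        ∃ z₀ : F, z₀ ≠ 0 ∧ ∀ c : k, c ≠ 0 → ¬ IsU O' (z₀ / algebraMap k F c)) →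
        BB ℓ V x U M S) := by
  obtain ⟨Φ, hΦ, hΦ'⟩ := Pool.Agent.Y32.PS.restr (proU ℓ k F Ω U) M hM
    (fun σ z hz => proU_stable ℓ U σ z hz)
  obtain ⟨T, hTdef⟩ : ∃ T, T = Φ.comp S := ⟨_, rfl⟩
  have hTc : Continuous T := by rw [hTdef]; exact hΦ.comp hcont
  have hT : ∀ (g : algebraicClosure k Ω ≃ₐ[k] algebraicClosure k Ω) (z : M)
      (w : proU ℓ k F Ω U), (w : Ω) = (z : Ω) → ((T g w : proU ℓ k F Ω U) : Ω) =
        ((S g z : M) : Ω) := fun g z w hw => by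
    rw [hTdef]
    exact hΦ' (S g) z w hw
  have hTcompat : ∀ σ (c : algebraicClosure k Ω) (z : proU ℓ k F Ω U), (z : Ω) = (c : Ω) →
      (T σ z : Ω) = (σ c : Ω) := by
    intro σ c z hz
    have h1 : (z : Ω) ∈ M := hM z.2
    rw [hT σ ⟨(z : Ω), h1⟩ z rfl]
    exact hcompat σ c _ hz
  obtain ⟨O₀, hO₀, hO₀un, hdich, hram⟩ := geoB V hVA hVm hℓ f hlc hs x hx U hUk hUsat hUf L hL hFL
    hLu hLf hbig T hTc hTcompat
  obtain ⟨O, hO⟩ := exists_ext (proU ℓ k F Ω U) M hM O₀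
  have hBB : (∃ W : ValuationSubring (proU ℓ k F Ω U),
          (((∀ c : k, algebraMap F (proU ℓ k F Ω U) (algebraMap k F c) ∈ W) ∧
            RamU ℓ k U x (proU ℓ k F Ω U) W) ∧
            (∀ z ∈ W, ∃ c : algebraicClosure k Ω, ∃ z' ∈ W.nonunits, (z' : Ω) = (z : Ω) - c) ∧
            ∀ σ, Dec V σ → ∀ z, T σ z ∈ W ↔ z ∈ W) ∧
          ∀ W' : ValuationSubring (proU ℓ k F Ω U),
            ((∀ c : k, algebraMap F (proU ℓ k F Ω U) (algebraMap k F c) ∈ W') ∧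
            RamU ℓ k U x (proU ℓ k F Ω U) W') →
            (∀ σ, Dec V σ → ∀ z, T σ z ∈ W' ↔ z ∈ W') → W' = W) → BB ℓ V x U M S := by
    rintro ⟨W₀, ⟨⟨g1, g3⟩, g2', g4⟩, hun⟩
    obtain ⟨W, ⟨⟨hW1, hW2, hW3, hW3'⟩, hW4⟩, hWun⟩ := lift_thm (proU ℓ k F Ω U) M hM S T
      (fun σ => Dec V σ) hT
      (fun L W => (∀ c : k, algebraMap F L (algebraMap k F c) ∈ W) ∧
         RamU ℓ k U x L W ∧
         (∀ z : F, algebraMap F L z ∈ W → ∃ c : algebraicClosure k Ω,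
            (∀ σ : algebraicClosure k Ω ≃ₐ[k] algebraicClosure k Ω, Dec V σ → σ c = c) ∧
            ∃ z' ∈ W.nonunits, (z' : Ω) = algebraMap F Ω z - c) ∧
         (∀ z : L, (z : Ω) ∈ proU ℓ k F Ω U → z ∈ W → ∃ c : algebraicClosure k Ω,
            ∃ z' ∈ W.nonunits, (z' : Ω) = (z : Ω) - c))
      (fun L W => (∀ c : k, algebraMap F L (algebraMap k F c) ∈ W) ∧ RamU ℓ k U x L W)
      (by
        rintro W ⟨a1, a2, a3, a4⟩
        refine ⟨a1, ramU_up hM le_rfl W a2, fun z hz => ?_, fun z hzM hz => ?_⟩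
        · obtain ⟨c, hcfix, z', hz', hc⟩ := a3 z hz
          exact ⟨c, hcfix, _, (non_incl ((IntermediateField.inclusion hM :
            proU ℓ k F Ω U →ₐ[F] M) : proU ℓ k F Ω U →+* M) W _).1 hz', hc⟩
        · obtain ⟨c, z', hz', hc⟩ := a4 ⟨(z : Ω), hzM⟩ hzM hz
          exact ⟨c, _, (non_incl ((IntermediateField.inclusion hM :
            proU ℓ k F Ω U →ₐ[F] M) : proU ℓ k F Ω U →+* M) W _).1 hz', hc⟩)
      (by
        rintro W ⟨a1, a2⟩
        exact ⟨a1, ramU_down hM le_rfl W a2⟩)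
      ⟨W₀, ⟨⟨g1, g3, fun z hz => by
        obtain ⟨c, z', hz', hc⟩ := g2' _ hz
        refine ⟨c, fun σ hσ => ?_, z', hz', hc⟩
        exact res_fixed _ W₀ g1 σ (T σ) (g4 σ hσ) (fun c z hz => hTcompat σ c z hz) z c z' hz' hc,
        fun z _ hz => g2' z hz⟩,
        fun σ hσ z => g4 σ hσ z⟩, fun W' hW' hst => hun W' ⟨hW'.1, hW'.2⟩ hst⟩
    exact ⟨W, ⟨⟨hW1, hW2, hW3, hW3'⟩, hW4⟩, fun W' b1 b2 b3 z hz => hWun W' ⟨b1, b2⟩ b3 z hz⟩
  refine ⟨O, ?_, ?_, ?_, fun h => hBB (hram h)⟩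
  · rw [gaussP_iff (U := U) (ℓ := ℓ) hM le_rfl, hO]
    exact hO₀
  · intro O' hO' z hz
    have h1 := hO₀un _ ((gaussP_iff (U := U) (ℓ := ℓ) hM le_rfl V O').1 hO')
    have h2 : (⟨(z : Ω), hz⟩ : proU ℓ k F Ω U) ∈ O'.comap ((IntermediateField.inclusion hM :
      proU ℓ k F Ω U →ₐ[F] M) : proU ℓ k F Ω U →+* M) ↔ (⟨(z : Ω), hz⟩ : proU ℓ k F Ω U) ∈
      O.comap ((IntermediateField.inclusion hM :
      proU ℓ k F Ω U →ₐ[F] M) : proU ℓ k F Ω U →+* M) := by rw [h1, hO]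
    exact h2
  · rcases hdich with h | h
    · left
      intro σ hσ z hz hzO
      have h1 := h σ hσ ⟨(z : Ω), hz⟩ (by rw [← hO]; exact hzO)
      rw [← hO, non_incl] at h1
      have h2 : ((IntermediateField.inclusion hM : proU ℓ k F Ω U →ₐ[F] M) :
          proU ℓ k F Ω U →+* M) (T σ ⟨(z : Ω), hz⟩ - ⟨(z : Ω), hz⟩) = S σ z - z := by
        apply Subtype.ext
        change ((T σ ⟨(z : Ω), hz⟩ : proU ℓ k F Ω U) : Ω) - (z : Ω) = _
        rw [hT σ z ⟨(z : Ω), hz⟩ rfl]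
        rfl
      rw [h2] at h1
      exact h1
    · exact Or.inr (hBB h)

end main

end Pool.Agent.H889.LM
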