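import Pool.Agent.H889.LM.Core
import Pool.Graph.R_seed8.Y157.PS.Ind2

/-!
# The geometrically pro-`ℓ` fundamental group of an open curve
-/

set_option autoImplicit false
set_option linter.all false

open Polynomial FF

namespace Pool.Agent.H889.LM

open Pool.Agent.Y157.PS Pool.Agent.Y948.PS Pool.Agent.H889.PS

section defs

/-- the valuation rings of `Ω` above `U` -/
def Ab {F : Type} [Field F] (Ω : Type) [Field Ω] [Algebra F Ω]
    (U : Set (ValuationSubring F)) (W : ValuationSubring Ω) : Prop :=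
  W ≠ ⊤ → W.comap (algebraMap F Ω) ∈ U

/-- the maximal pro-`ℓ` extension of `k̄ F` which is unramified over `U`, as an extension of `F` -/
noncomputable def proU (ℓ : ℕ) (k F Ω : Type) [Field k] [Field F] [Field Ω] [Algebra k F]
    [Algebra F Ω] [Algebra k Ω] (U : Set (ValuationSubring F)) : IntermediateField F Ω :=
  (maxU ℓ k (geomF k F Ω) Ω (Ab Ω U)).restrictScalars F

end defs

section gen

variable {k F Ω : Type} [Field k] [Field F] [Field Ω] [Algebra k F] [Algebra F Ω]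
  [Algebra k Ω] [IsScalarTower k F Ω]

open Pool.Agent.Y529.PS.IN in
theorem fixed_levelU (ℓ : ℕ) [Fact ℓ.Prime] [CharZero Ω] [IsAlgClosed Ω] (W : ValuationSubring Ω)
    (hW : ∀ c : k, algebraMap k Ω c ∈ W) (σ : Ω ≃ₐ[F] Ω)
    (hσ : ∀ z ∈ W, σ z - z ∈ W.nonunits) (L : IntermediateField (geomF k F Ω) Ω)
    (hL : Lev ℓ L) (hU : ∀ z ∈ L, z ≠ 0 → ∃ t : geomF k F Ω, t ≠ 0 ∧
      IsU W (z / algebraMap (geomF k F Ω) Ω t)) {y : Ω} (hy : y ∈ L) : σ y = y := by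
  have hfin : FiniteDimensional (geomF k F Ω) L := hL.fin
  have hgal : IsGalois (geomF k F Ω) L := hL.gal
  let τ : Ω ≃ₐ[geomF k F Ω] Ω := AlgEquiv.ofRingEquiv (f := (σ : Ω ≃+* Ω))
    (fun c => geomF_fixed W hW σ hσ c.2)
  have hτ : ∀ z, τ z = σ z := fun z => rfl
  have hτj : ∀ (j : ℕ) z, (τ ^ j) z = (σ ^ j) z := by
    intro j
    induction j with
    | zero => intro z; rw [pow_zero, pow_zero]; rfl
    | succ j ih =>
      intro z
      rw [pow_succ, pow_succ, AlgEquiv.mul_apply, AlgEquiv.mul_apply, ih, hτ]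
  obtain ⟨N, hN⟩ : ∃ N, N = Module.finrank (geomF k F Ω) L := ⟨_, rfl⟩
  have hN0 : 0 < N := by rw [hN]; exact Module.finrank_pos
  haveI : NeZero N := ⟨hN0.ne'⟩
  obtain ⟨ζ, hζ⟩ : ∃ ζ : Ω, IsPrimitiveRoot ζ N := HasEnoughRootsOfUnity.exists_primitiveRoot Ω N
  have hζ0 : ζ ≠ 0 := hζ.ne_zero hN0.ne'
  have hζk : ζ ∈ algebraicClosure k Ω := by
    rw [mem_algebraicClosure_iff']
    exact hζ.isIntegral hN0 |>.tower_top
  have hσζ : σ ζ = ζ := kbar_fixed W hW σ hσ hζk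
  apply fixed_of_comp σ hN0 hζ y
  intro i
  obtain ⟨u, hu⟩ : ∃ u, u = Pool.Agent.Y529.PS.IN.comp σ N ζ y i := ⟨_, rfl⟩
  rw [← hu]
  have huL : u ∈ L := by
    rw [hu]
    unfold Pool.Agent.Y529.PS.IN.comp
    refine sum_mem fun j _ => mul_mem (pow_mem (pow_mem (inv_mem ?_) _) _) ?_
    · exact L.algebraMap_mem (⟨ζ, kbar_le hζk⟩ : geomF k F Ω)
    · rw [← hτj]
      exact level_mem L (τ ^ j) hy
  have heig : σ u = ζ ^ i * u := by
    rw [hu]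
    exact comp_eigen σ hζ.pow_eq_one hζ0 hσζ y (by
      rw [← hτj, hN]; exact level_pow L τ hy) i
  by_cases hu0 : u = 0
  · rw [hu0, map_zero]
  obtain ⟨t, ht0, ht⟩ := hU u huL hu0
  have ht' : σ (t : Ω) = t := geomF_fixed W hW σ hσ t.2
  obtain ⟨a, ha⟩ : ∃ a, a = u / algebraMap (geomF k F Ω) Ω t := ⟨_, rfl⟩
  rw [← ha] at ht
  have h1 : σ a = ζ ^ i * a := by
    rw [ha, map_div₀, heig]
    change _ / σ (t : Ω) = _
    rw [ht']
    exact mul_div_assoc _ _ _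
  have h2 := hσ a ht.2.1
  rw [h1] at h2
  have h3 : ζ ^ i * a - a = a * (ζ ^ i - 1) := by ring
  rw [h3] at h2
  have h4 := non_of_isU_mul ht h2
  have h5 := zero_of_nonunit W hW (sub_mem (pow_mem hζk i) (one_mem _)) h4
  rw [heig, sub_eq_zero.1 h5, one_mul]

open Pool.Agent.Y529.PS.IN in
theorem pre_unrP (K : IntermediateField F Ω) (P : ValuationSubring Ω → Prop) (σ : Ω ≃ₐ[F] Ω)
    (hP : ∀ W : ValuationSubring Ω, P W → P (W.comap ((σ.symm : Ω ≃+* Ω) : Ω →+* Ω)))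
    (h : ∀ z ∈ K, σ z ∈ K)
    (h' : ∀ z ∈ K, σ.symm z ∈ K) (L : IntermediateField K Ω) (hL : UnrP k K Ω P L) :
    UnrP k K Ω P (pre K σ h L) := by
  intro W hW hPW z hz hz0
  let W' : ValuationSubring Ω := W.comap ((σ.symm : Ω ≃+* Ω) : Ω →+* Ω)
  have hW' : ∀ y, y ∈ W' ↔ σ.symm y ∈ W := fun y => ValuationSubring.mem_comap
  obtain ⟨t, ht0, ht⟩ := hL W' (fun c => by
    rw [hW', IsScalarTower.algebraMap_apply k F Ω, σ.symm.commutes,
      ← IsScalarTower.algebraMap_apply]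
    exact hW c) (hP W hPW) (σ z) hz ((map_ne_zero_iff σ σ.injective).2 hz0)
  refine ⟨⟨σ.symm t, h' t t.2⟩, ?_, ?_⟩
  · intro h0
    apply ht0
    have h1 : σ.symm (t : Ω) = 0 := congrArg Subtype.val h0
    exact Subtype.ext ((map_eq_zero_iff σ.symm σ.symm.injective).1 h1)
  · obtain ⟨h1, h2, h3⟩ := ht
    rw [hW', map_div₀, σ.symm_apply_apply] at h2
    rw [hW', map_inv₀, map_div₀, σ.symm_apply_apply] at h3
    refine ⟨?_, h2, h3⟩
    intro h0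
    apply h1
    have h4 : σ.symm (σ z / algebraMap K Ω t) = 0 := by
      rw [map_div₀, σ.symm_apply_apply]
      exact h0
    exact (map_eq_zero_iff σ.symm σ.symm.injective).1 h4

theorem Ab.conj {U : Set (ValuationSubring F)} (σ : Ω ≃ₐ[F] Ω) (W : ValuationSubring Ω)
    (h : Ab Ω U W) : Ab Ω U (W.comap ((σ.symm : Ω ≃+* Ω) : Ω →+* Ω)) := by
  intro hW
  have h1 : W ≠ ⊤ := by
    rintro rfl
    apply hW
    ext y
    exact ⟨fun _ => trivial, fun _ => trivial⟩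
  have h2 : (W.comap ((σ.symm : Ω ≃+* Ω) : Ω →+* Ω)).comap (algebraMap F Ω) =
      W.comap (algebraMap F Ω) := by
    ext y
    change σ.symm (algebraMap F Ω y) ∈ W ↔ algebraMap F Ω y ∈ W
    rw [σ.symm.commutes]
  rw [h2]
  exact h h1

open Pool.Agent.Y529.PS.IN in
/-- `M_U` is stable under the automorphisms of `Ω` over `F` -/
theorem proU_stable (ℓ : ℕ) (U : Set (ValuationSubring F)) (σ : Ω ≃ₐ[F] Ω) (z : Ω)
    (hz : z ∈ proU ℓ k F Ω U) : σ z ∈ proU ℓ k F Ω U := by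
  have h2 : ∀ z ∈ geomF k F Ω, σ z ∈ geomF k F Ω := fun z hz => geomF_stable σ hz
  have h3 : ∀ z ∈ geomF k F Ω, σ.symm z ∈ geomF k F Ω := fun z hz => geomF_stable σ.symm hz
  have h1 : maxU ℓ k (geomF k F Ω) Ω (Ab Ω U) ≤
      pre (geomF k F Ω) σ h2 (maxU ℓ k (geomF k F Ω) Ω (Ab Ω U)) := by
    conv_lhs => unfold maxU
    refine iSup_le fun L => ?_
    intro y hy
    rw [mem_pre]
    have h4 : pre (geomF k F Ω) σ.symm h3 L.1 ≤ maxU ℓ k (geomF k F Ω) Ω (Ab Ω U) := by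
      unfold maxU
      exact le_iSup (fun L : {L : IntermediateField (geomF k F Ω) Ω //
        Lev ℓ L ∧ UnrP k (geomF k F Ω) Ω (Ab Ω U) L} => L.1)
        ⟨pre (geomF k F Ω) σ.symm h3 L.1, pre_lev ℓ _ _ _ h2 _ L.2.1,
          pre_unrP _ _ _ (fun W hW => Ab.conj σ.symm W hW) _ h2 _ L.2.2⟩
    apply h4
    rw [mem_pre, σ.symm_apply_apply]
    exact hy
  exact h1 hz

open Pool.Agent.Y529.PS.IN in
/-- inertia groups over `U` act trivially on `M_U` -/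
theorem proU_inertia (ℓ : ℕ) [Fact ℓ.Prime] [CharZero k] [IsAlgClosed Ω]
    (U : Set (ValuationSubring F)) (W : ValuationSubring Ω)
    (hW : ∀ c : k, algebraMap k Ω c ∈ W) (hWU : W.comap (algebraMap F Ω) ∈ U) (σ : Ω ≃ₐ[F] Ω)
    (hσ : ∀ z ∈ W, σ z - z ∈ W.nonunits) (z : Ω) (hz : z ∈ proU ℓ k F Ω U) : σ z = z := by
  haveI : CharZero Ω := charZero_of_injective_algebraMap (algebraMap k Ω).injective
  have h1 : maxU ℓ k (geomF k F Ω) Ω (Ab Ω U) ≤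
      fixK (geomF k F Ω) σ (fun z hz => geomF_fixed W hW σ hσ hz) := by
    unfold maxU
    refine iSup_le fun L => ?_
    intro y hy
    exact fixed_levelU ℓ W hW σ hσ L.1 L.2.1 (L.2.2 W hW fun _ => hWU) hy
  exact h1 hz

/-- `M_U ⊆ F_U` -/
theorem proU_le (ℓ : ℕ) [Fact ℓ.Prime] [CharZero k] [IsAlgClosed Ω]
    (U : Set (ValuationSubring F)) (hU : ∀ O ∈ U, ∀ c : k, algebraMap k F c ∈ O) :
    proU ℓ k F Ω U ≤ Pool.Agent.W620.SC.unramified F Ω U := by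
  intro z hz
  rw [Pool.Agent.W620.SC.mem_unramified]
  intro W hW σ hσ
  refine proU_inertia ℓ U W (fun c => ?_) hW σ (fun y hy => ?_) z hz
  · have h3 := hU _ hW c
    rw [ValuationSubring.mem_comap] at h3
    rw [IsScalarTower.algebraMap_apply k F Ω]
    exact h3
  · exact (Pool.Agent.W620.SC.inertia_spec hσ hy).2

theorem geomF_le_proU (ℓ : ℕ) (U : Set (ValuationSubring F)) : geomF k F Ω ≤ proU ℓ k F Ω U :=
  fun z hz => (maxU ℓ k (geomF k F Ω) Ω (Ab Ω U)).algebraMap_mem ⟨z, hz⟩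

end gen

section congr

variable {κ₁ κ₂ K₁ K₂ Ω : Type} [Field κ₁] [Field κ₂] [Field K₁] [Field K₂] [Field Ω]
  [Algebra κ₁ Ω] [Algebra κ₂ Ω] [Algebra K₁ Ω] [Algebra K₂ Ω]

theorem maxU_le {ℓ : ℕ} (P : ValuationSubring Ω → Prop) (e : K₁ ≃+* K₂)
    (he : ∀ a, algebraMap K₂ Ω (e a) = algebraMap K₁ Ω a)
    (hκ : ∀ W : ValuationSubring Ω, (∀ c, algebraMap κ₂ Ω c ∈ W) → ∀ c, algebraMap κ₁ Ω c ∈ W)
    (z : Ω) (hz : z ∈ maxU ℓ κ₁ K₁ Ω P) : z ∈ maxU ℓ κ₂ K₂ Ω P := by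
  have he' : ∀ a, algebraMap K₁ Ω (e.symm a) = algebraMap K₂ Ω a := by
    intro a
    rw [← he, e.apply_symm_apply]
  have h1 : maxU ℓ κ₁ K₁ Ω P ≤ swap e.symm he' (maxU ℓ κ₂ K₂ Ω P) := by
    refine iSup_le fun L => ?_
    intro w hw
    rw [mem_swap]
    have h2 : swap e he L.1 ≤ maxU ℓ κ₂ K₂ Ω P := by
      refine le_iSup (fun L : {L : IntermediateField K₂ Ω // Lev ℓ L ∧ UnrP κ₂ K₂ Ω P L} => L.1)
        ⟨swap e he L.1, swap_lev e he L.1 L.2.1, ?_⟩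
      intro W hW hPW z hz hz0
      obtain ⟨t, ht, hu⟩ := L.2.2 W (hκ W hW) hPW z hz hz0
      exact ⟨e t, (map_ne_zero_iff e e.injective).2 ht, by rw [he]; exact hu⟩
    exact h2 hw
  exact h1 hz

theorem maxU_congr {ℓ : ℕ} (P : ValuationSubring Ω → Prop) (e : K₁ ≃+* K₂)
    (he : ∀ a, algebraMap K₂ Ω (e a) = algebraMap K₁ Ω a)
    (hκ : ∀ W : ValuationSubring Ω, (∀ c, algebraMap κ₂ Ω c ∈ W) ↔ ∀ c, algebraMap κ₁ Ω c ∈ W)
    (z : Ω) : z ∈ maxU ℓ κ₁ K₁ Ω P ↔ z ∈ maxU ℓ κ₂ K₂ Ω P := by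
  refine ⟨maxU_le P e he (fun W => (hκ W).1) z, maxU_le P e.symm ?_ (fun W => (hκ W).2) z⟩
  intro a
  rw [← he, e.apply_symm_apply]

end congr

end Pool.Agent.H889.LM
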