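import Pool.Agent.H889.LM.Rest
import Pool.Agent.H889.PS.Geom

/-!
# The valuation ring at one level
-/

set_option autoImplicit false
set_option linter.all false

open Polynomial FF

namespace Pool.Agent.H889.LM

open Pool.Agent.Y157.PS Pool.Agent.Y31.PS Pool.Agent.H889.PS

section pn

/-- `Q` is a valuation ring over `κ`, ramified over `κ(x)`, and fixed by the image of the
decomposition group of `V` -/
def PN (R : Type) {k κ M : Type} [Field k] [Field κ] [Algebra k κ] [Field R] [Field M]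
    [Algebra R M] [Algebra κ M] (V : ValuationSubring κ) (s : (κ ≃ₐ[k] κ) →* RingAut M)
    (Q : ValuationSubring M) : Prop :=
  (∀ c : κ, algebraMap κ M c ∈ Q) ∧
  (∃ z : M, z ≠ 0 ∧ ∀ t : R, t ≠ 0 → ¬ IsU Q (z / algebraMap R M t)) ∧
  ∀ σ : κ ≃ₐ[k] κ, Dec V σ → ∀ z, s σ z ∈ Q ↔ z ∈ Q

theorem PN.ne_top {R k κ M : Type} [Field k] [Field κ] [Algebra k κ] [Field R] [Field M]
    [Algebra R M] [Algebra κ M] {V : ValuationSubring κ} {s : (κ ≃ₐ[k] κ) →* RingAut M}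
    {Q : ValuationSubring M} (h : PN R V s Q) : Q ≠ ⊤ := by
  rintro rfl
  obtain ⟨-, ⟨z, hz0, hzt⟩, -⟩ := h
  apply hzt 1 one_ne_zero
  rw [map_one, div_one]
  exact ⟨hz0, trivial, trivial⟩

end pn

section lev

variable {k κ R M : Type} [Field k] [Field κ] [Algebra k κ] [IsAlgClosed κ] [CharZero κ]
    [Field R] [Field M] [Algebra κ R] [Algebra R M]
    [Algebra κ M] [IsScalarTower κ R M] {ℓ : ℕ} [Fact ℓ.Prime]
    {V : ValuationSubring κ} {x : R} {B : Finset κ} {ε : κ → ℕ} {ι : ℕ}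
    {N₀ : IntermediateField R M} {s : (κ ≃ₐ[k] κ) →* RingAut M}

theorem PN.place (hC : GCov ℓ κ R M x B ε ι N₀) (hs : GSec k κ R M x s)
    {Q : ValuationSubring M} (h : PN R V s Q) :
    ∃ W : Place κ M, W.O = Q ∧ IsRam ε ι x W ∧ ∀ σ : κ ≃ₐ[k] κ, Dec V σ → Fixes W (s σ) := by
  obtain ⟨W, hW, -⟩ := hC.loc Q h.1 h.ne_top
  refine ⟨W, hW, ?_, fun σ hσ => ?_⟩
  · obtain ⟨-, ⟨z, hz0, hzt⟩, -⟩ := h
    refine (isRam_iff hC Set.univ W ?_).2 ⟨z, trivial, hz0, fun t ht h5 => ?_⟩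
    · obtain ⟨-, π, -, hπ⟩ := hC.loc' W
      exact ⟨π, trivial, hπ⟩
    · apply hzt t ht
      rw [← isU_place W hz0 ((_root_.map_ne_zero _).2 ht), hW] at h5
      exact h5
  · refine fixes_of_O W (s σ) (σ : κ ≃+* κ) (fun c => hs.const σ c) fun z => ?_
    rw [hW]
    exact h.2.2 σ hσ z

theorem PN.of_place (hC : GCov ℓ κ R M x B ε ι N₀) (W : Place κ M) (hram : IsRam ε ι x W)
    (hfix : ∀ σ : κ ≃ₐ[k] κ, Dec V σ → ∀ z, s σ z ∈ W.O ↔ z ∈ W.O) : PN R V s W.O := by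
  refine ⟨fun c => W.reg_const c, ?_, hfix⟩
  obtain ⟨z, -, hz0, hzt⟩ := (isRam_iff hC Set.univ W (by
    obtain ⟨-, π, -, hπ⟩ := hC.loc' W
    exact ⟨π, trivial, hπ⟩)).1 hram
  refine ⟨z, hz0, fun t ht hu => hzt t ht ?_⟩
  rwa [isU_place W hz0 ((_root_.map_ne_zero _).2 ht)] at hu

/-- a valuation ring with a nontrivial stabiliser is ramified -/
theorem PN.of_stab (hC : GCov ℓ κ R M x B ε ι N₀) {Q : ValuationSubring M}
    (h1 : ∀ c : κ, algebraMap κ M c ∈ Q) (h2 : Q ≠ ⊤)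
    (h3 : ∀ σ : κ ≃ₐ[k] κ, Dec V σ → ∀ z, s σ z ∈ Q ↔ z ∈ Q) (c : M ≃ₐ[R] M) (hc : c ≠ 1)
    (hcQ : ∀ z, c z ∈ Q ↔ z ∈ Q) : PN R V s Q := by
  obtain ⟨W, hW, -⟩ := hC.loc Q h1 h2
  have hfix : Fixes W c := by
    refine fixes_of_O W (c : M ≃+* M) (RingEquiv.refl κ) (fun a => ?_) fun z => ?_
    · change c (algebraMap κ M a) = algebraMap κ M a
      rw [IsScalarTower.algebraMap_apply κ R M]
      exact c.commutes _
    · rw [hW]
      exact hcQ z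
  have hram : IsRam ε ι x W := by
    obtain ⟨h1, -⟩ := above_M hC hc hfix
    have hpos : ∀ n : ℕ, (0 : ℤ) < (ℓ : ℤ) ^ n := fun n => by
      have := (Fact.out : ℓ.Prime).pos
      positivity
    rcases h1 with ⟨e, -, he, h1⟩ | ⟨h1, h2⟩
    · exact Or.inl ⟨e, h1, by rw [he]; exact hpos _⟩
    · refine Or.inr ⟨h2, ?_⟩
      rw [h1]
      have := hpos ι
      omega
  have := PN.of_place (V := V) (s := s) hC W hram (by rw [hW]; exact h3)
  rwa [hW] at this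

end lev

section level

variable {A k κ R M : Type} [CommRing A] [IsDomain A]
    [IsDiscreteValuationRing A] [Field k] [Field κ] [Algebra A k] [Algebra k κ] [Algebra A κ]
    [IsScalarTower A k κ] [IsFractionRing A k] [CharZero k] [IsAlgClosure k κ]
    [Finite (IsLocalRing.ResidueField A)] [Field R] [Field M] [Algebra κ R] [Algebra R M]
    [Algebra κ M] [IsScalarTower κ R M] {ℓ : ℕ} [Fact ℓ.Prime] [IsAlgClosed κ] [CharZero κ]
    {V : ValuationSubring κ} {ϖ : A} {x : R} {B : Finset κ} {ε : κ → ℕ} {ι : ℕ}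
    {N₀ : IntermediateField R M} {s : (κ ≃ₐ[k] κ) →* RingAut M} {O : ValuationSubring M}

theorem level (hB : IB ℓ A k κ V ϖ) (hC : GCov ℓ κ R M x B ε ι N₀) (hGood : Good V B)
    (hs : GSec k κ R M x s) (hO : Gauss V (algebraMap R M x) O)
    (hbad : ∃ σ : κ ≃ₐ[k] κ, Ine V σ ∧ ∃ z ∈ O, s σ z - z ∉ O.nonunits) :
    ∃ Q : ValuationSubring M, PN R V s Q ∧
      (∀ (σ : κ ≃ₐ[k] κ) (γ : M ≃ₐ[R] M), Ine V σ → Rel O s σ γ → ∀ z, γ z ∈ Q ↔ z ∈ Q) ∧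
      ∀ Q' : ValuationSubring M, PN R V s Q' → Q' = Q := by
  obtain ⟨F0, iF0, r, hr, ⟨D⟩⟩ := a_ndisc A k κ V hB.mem hB.non ℓ hB.lunit
  obtain ⟨W, hram, -, hfix, hγ, hun⟩ := loc2 hB hC hGood F0 r hr D hs hO hbad
  refine ⟨W.O, PN.of_place hC W hram fun σ hσ z => O_of_fixes W (s σ) (hfix σ hσ) z,
    fun σ γ hσ h z => O_of_fixes W (γ : M ≃+* M) (hγ σ γ hσ h) z, fun Q' hQ' => ?_⟩
  obtain ⟨W', hW', h1, h2⟩ := hQ'.place hC hs
  rw [← hW', hun W' h1 h2]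

end level

end Pool.Agent.H889.LM
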