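import Pool.Agent.H889.PS.Geo

/-!
# The maximal pro-`ℓ` extension which is unramified over an open subset
-/

set_option autoImplicit false
set_option linter.all false

open Polynomial FF

namespace Pool.Agent.H889.LM

open Pool.Agent.Y157.PS Pool.Agent.Y948.PS Pool.Agent.H889.PS

section defs

/-- elements of the maximal pro-`ℓ` extension of `K0` unramified at the valuation rings in `P` -/
def MemU (ℓ : ℕ) (κ : Type) {R Ω : Type} [Field κ] [Field R] [Field Ω] [Algebra R Ω]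
    [Algebra κ Ω] (P : ValuationSubring Ω → Prop) (K0 : IntermediateField R Ω) (z : Ω) : Prop :=
  Pro ℓ R z ∧ ∀ W : ValuationSubring Ω, (∀ c : κ, algebraMap κ Ω c ∈ W) → W ≠ ⊤ → P W → Apx K0 W z

/-- no valuation ring in `P` over `κ` ramifies in `L / K` -/
def UnrP (κ K Ω : Type) [Field κ] [Field K] [Field Ω] [Algebra κ Ω] [Algebra K Ω]
    (P : ValuationSubring Ω → Prop) (L : IntermediateField K Ω) : Prop :=
  ∀ W : ValuationSubring Ω, (∀ c : κ, algebraMap κ Ω c ∈ W) → P W → ∀ z ∈ L, z ≠ 0 →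
    ∃ t : K, t ≠ 0 ∧ IsU W (z / algebraMap K Ω t)

/-- the maximal pro-`ℓ` extension of `K` which is unramified at the valuation rings in `P` -/
def maxU (ℓ : ℕ) (κ K Ω : Type) [Field κ] [Field K] [Field Ω] [Algebra κ Ω] [Algebra K Ω]
    (P : ValuationSubring Ω → Prop) : IntermediateField K Ω :=
  ⨆ L : {L : IntermediateField K Ω // Lev ℓ L ∧ UnrP κ K Ω P L}, L.1

/-- every nonzero element of `N0` has the value of an element of `Kf` at the valuation rings in
`P` -/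
def UnrLevP (κ : Type) {R Ω : Type} [Field κ] [Field R] [Field Ω] [Algebra R Ω] [Algebra κ Ω]
    (P : ValuationSubring Ω → Prop) (Kf N0 : IntermediateField R Ω) : Prop :=
  ∀ W : ValuationSubring Ω, (∀ c : κ, algebraMap κ Ω c ∈ W) → P W → ∀ z ∈ N0, z ≠ 0 →
    ∃ t ∈ Kf, t ≠ 0 ∧ W.valuation z = W.valuation t

end defs

section setup

variable {κ R Ω : Type} [Field κ] [Field R] [Field Ω] [Algebra κ R] [Algebra R Ω] [Algebra κ Ω]
  [IsScalarTower κ R Ω] {P : ValuationSubring Ω → Prop}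

/-- the field of the elements with `MemU` -/
def MFU (ℓ : ℕ) (κ : Type) [Field κ] [Algebra κ Ω] (P : ValuationSubring Ω → Prop)
    [Algebra.IsAlgebraic R Ω] (K0 : IntermediateField R Ω) : IntermediateField R Ω where
  carrier := {z | MemU ℓ κ P K0 z}
  mul_mem' := fun {a b} ha hb => ⟨ha.1.mul hb.1, fun W h1 h2 h3 =>
    (ha.2 W h1 h2 h3).mul (hb.2 W h1 h2 h3)⟩
  add_mem' := fun {a b} ha hb => ⟨ha.1.add hb.1, fun W h1 h2 h3 =>
    (ha.2 W h1 h2 h3).add (hb.2 W h1 h2 h3)⟩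
  algebraMap_mem' := fun r => ⟨Pro.base ℓ r, fun W h1 h2 _ => Apx.of_mem (algebraMap_mem _ _)⟩
  inv_mem' := fun a ha => ⟨ha.1.inv, fun W h1 h2 h3 => (ha.2 W h1 h2 h3).inv⟩

theorem MemU.conj {ℓ : ℕ} {K0 : IntermediateField R Ω}
    (hP : ∀ (γ : Ω ≃ₐ[R] Ω) (W : ValuationSubring Ω), P W → P (W.comap (γ : Ω →+* Ω)))
    (hK : ∀ (γ : Ω ≃ₐ[R] Ω), ∀ t ∈ K0, γ t ∈ K0) {z : Ω} (hz : MemU ℓ κ P K0 z)
    (γ : Ω ≃ₐ[R] Ω) : MemU ℓ κ P K0 (γ z) := by
  refine ⟨hz.1.conj γ, fun W hκ hW hPW => Apx.conj hK γ (hz.2 _ ?_ ?_ (hP γ W hPW))⟩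
  · intro c
    rw [ValuationSubring.mem_comap]
    have : (γ : Ω →+* Ω) (algebraMap κ Ω c) = algebraMap κ Ω c := by
      rw [IsScalarTower.algebraMap_apply κ R Ω]
      exact γ.commutes _
    rw [this]
    exact hκ c
  · intro h
    apply hW
    ext y
    simp only [ValuationSubring.mem_top, iff_true]
    have : γ.symm y ∈ W.comap (γ : Ω →+* Ω) := by rw [h]; trivial
    rw [ValuationSubring.mem_comap] at this
    simpa using this

end setup

section cov

variable {κ R Ω : Type} [Field κ] [IsAlgClosed κ] [CharZero κ] [Field R] [Field Ω] [Algebra κ R]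
  [Algebra R Ω] [Algebra κ Ω] [IsScalarTower κ R Ω] {x : R} {ℓ : ℕ} [Fact ℓ.Prime]
  {N0 Kf : IntermediateField R Ω} {P : ValuationSubring Ω → Prop}

theorem Apx_upP (hu : UnrLevP κ P Kf N0) (hle : Kf ≤ N0) {W : ValuationSubring Ω}
    (hc : ∀ c : κ, algebraMap κ Ω c ∈ W) (hPW : P W) {z : Ω} (hz : Apx Kf W z) : Apx N0 W z := by
  intro s hs hs0
  obtain ⟨s', hs', hs0', h1⟩ := hu W hc hPW s hs hs0
  obtain ⟨t, ht, h2⟩ := hz s' hs' hs0'
  exact ⟨t, hle ht, by rw [h1]; exact h2⟩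

theorem unf_baseP (hu : UnrLevP κ P Kf N0) (hle : Kf ≤ N0) {W : ValuationSubring Ω}
    (hc : ∀ c : κ, algebraMap κ Ω c ∈ W) (hPW : P W) {π : Ω} (hπ : Unf N0 W π) :
    ∃ π', Unf Kf W π' := by
  obtain ⟨t, ht, ht0, h1⟩ := hu W hc hPW π hπ.mem hπ.ne
  refine ⟨t, ht, ht0, by rw [← h1]; exact hπ.lt, fun z hz hz0 => ?_⟩
  obtain ⟨n, hn⟩ := hπ.val z (hle hz) hz0
  exact ⟨n, by rw [hn, h1]⟩

variable [Algebra.IsAlgebraic R Ω] [Normal R Ω]

/-- the maximal pro-`ℓ` extension of `Kf` which is unramified at `P` -/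
theorem mem_maxU (hx : RatF κ x) (hN : Lev ℓ N0) (hle : Kf ≤ N0) (hu : UnrLevP κ P Kf N0)
    (hP : ∀ (γ : Ω ≃ₐ[R] Ω) (W : ValuationSubring Ω), P W → P (W.comap (γ : Ω →+* Ω)))
    (z : Ω) : z ∈ maxU ℓ κ Kf Ω P ↔ MemU ℓ κ P N0 z := by
  haveI : CharZero R := charZero_of_injective_algebraMap (algebraMap κ R).injective
  have hU := HU_lev (κ := κ) hx hN
  obtain ⟨m, hm⟩ := hN.card
  constructor
  · intro hz
    have hP0 : ∀ t ∈ Kf, MemU ℓ κ P N0 t := fun t ht =>
      ⟨Pro_lev hN t (hle ht), fun W h1 h2 _ => Apx.of_mem (hle ht)⟩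
    let MK : IntermediateField Kf Ω :=
      { (MFU ℓ κ P N0).toSubfield with
        algebraMap_mem' := fun r => hP0 _ r.2
        inv_mem' := fun a ha => (MFU ℓ κ P N0).inv_mem ha }
    have hle' : maxU ℓ κ Kf Ω P ≤ MK := by
      refine iSup_le ?_
      rintro ⟨L, hL, hLu⟩ y hy
      change MemU ℓ κ P N0 y
      constructor
      · obtain ⟨a, ha⟩ := hL.card
        haveI := hL.fin
        haveI := hL.gal
        refine ⟨m + a, fun σ γ => ?_⟩
        obtain ⟨τ, hτ⟩ : ∃ τ : Ω ≃ₐ[R] Ω, τ = γ⁻¹ * σ * γ := ⟨_, rfl⟩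
        have h2 : τ ^ (ℓ ^ m) ∈ Kf.fixingSubgroup := by
          rw [IntermediateField.mem_fixingSubgroup_iff]
          intro t ht
          exact lev_pow hN hm τ t (hle ht)
        let τ' : Ω ≃ₐ[Kf] Ω := IntermediateField.fixingSubgroupEquiv Kf ⟨τ ^ (ℓ ^ m), h2⟩
        have h3 : ∀ (j : ℕ) (w : Ω), (τ' ^ j) w = ((τ ^ (ℓ ^ m)) ^ j) w := by
          intro j
          induction j with
          | zero => intro w; simp
          | succ j ih =>
            intro w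
            rw [pow_succ, AlgEquiv.mul_apply, ih, pow_succ, AlgEquiv.mul_apply]
            rfl
        have h4 : (AlgEquiv.restrictNormalHom L τ') ^ (ℓ ^ a) = 1 := by
          rw [← ha, ← IsGalois.card_aut_eq_finrank]
          exact pow_card_eq_one'
        rw [← map_pow] at h4
        have h5 : (τ' ^ (ℓ ^ a)) y = y := by
          have := AlgEquiv.restrictNormal_commutes (τ' ^ (ℓ ^ a)) L ⟨y, hy⟩
          have h6 : (τ' ^ (ℓ ^ a)).restrictNormal L = 1 := h4
          rw [h6] at this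
          exact this.symm
        rw [h3, ← pow_mul, ← pow_add] at h5
        have h7 : γ⁻¹ * σ ^ (ℓ ^ (m + a)) * γ = τ ^ (ℓ ^ (m + a)) := by
          rw [hτ]
          have := _root_.conj_pow (i := ℓ ^ (m + a)) (a := γ⁻¹) (b := σ)
          rw [inv_inv] at this
          exact this.symm
        rw [← h7] at h5
        have h8 : γ (γ⁻¹ ((σ ^ (ℓ ^ (m + a))) (γ y))) = γ y := by
          congr 1
        have h9 : ∀ w, γ (γ⁻¹ w) = w := fun w => by
          rw [← AlgEquiv.mul_apply, mul_inv_cancel, AlgEquiv.one_apply]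
        rwa [h9] at h8
      · intro W hκ hW hPW
        obtain ⟨π, hπ⟩ := hU W hκ hW
        obtain ⟨π', hπ'⟩ := unf_baseP hu hle hκ hPW hπ
        refine Apx_upP hu hle hκ hPW (Apx.of_unr hπ' (hres hx Kf W hκ hW) L.toSubfield
          (fun t ht => L.algebraMap_mem ⟨t, ht⟩) ?_ hy)
        intro w hw hw0
        obtain ⟨t, ht0, ht⟩ := hLu W hκ hPW w hw hw0
        have ht0' : (t : Ω) ≠ 0 := by simpa using ht0
        refine ⟨t, t.2, ht0', ?_⟩
        have h1 := (Pool.Agent.Y948.PS.isU_iff W).1 ht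
        have h2 : algebraMap Kf Ω t = (t : Ω) := rfl
        rw [h2, map_div₀] at h1
        rwa [div_eq_one_iff_eq] at h1
        exact ((Valuation.pos_iff _).2 ht0').ne'
    exact hle' hz
  · intro hz
    have hK : ∀ (γ : Ω ≃ₐ[R] Ω), ∀ t ∈ N0, γ t ∈ N0 := fun γ t ht => lev_stable hN γ t ht
    have hle2 : Kf ≤ MFU ℓ κ P N0 := fun t ht =>
      ⟨Pro_lev hN t (hle ht), fun W h1 h2 _ => Apx.of_mem (hle ht)⟩
    haveI : CharZero Kf := charZero_of_injective_algebraMap (algebraMap R Kf).injective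
    haveI : Normal Kf Ω := Normal.tower_top_of_normal R Kf Ω
    let S : IntermediateField Kf Ω := IntermediateField.extendScalars hle2
    have hS : ∀ y, y ∈ S ↔ MemU ℓ κ P N0 y := fun y => IntermediateField.mem_extendScalars hle2
    have hres' : ∀ (σ : Ω ≃ₐ[Kf] Ω) (j : ℕ) (w : Ω), (σ ^ j) w = ((σ.restrictScalars R) ^ j) w := by
      intro σ j
      induction j with
      | zero => intro w; simp
      | succ j ih =>
        intro w
        rw [pow_succ, AlgEquiv.mul_apply, ih, pow_succ, AlgEquiv.mul_apply]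
        rfl
    obtain ⟨N, hzN, hNS, hN'⟩ := exists_lev (ℓ := ℓ) S
      (fun σ y hy => (hS _).2 (((hS y).1 hy).conj hP hK (σ.restrictScalars R)))
      (fun θ hθ σ => by
        obtain ⟨k, hk⟩ := ((hS θ).1 hθ).1
        refine ⟨k, ?_⟩
        rw [hres']
        exact hk (σ.restrictScalars R) 1)
      ((hS z).2 hz)
    have hNu : UnrP κ Kf Ω P N := by
      intro W hκ hPW w hw hw0
      by_cases hW : W = ⊤
      · refine ⟨1, one_ne_zero, ?_, ?_, ?_⟩
        · rw [map_one, div_one]; exact hw0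
        · rw [hW]; trivial
        · rw [hW]; trivial
      · obtain ⟨π, hπ⟩ := hU W hκ hW
        obtain ⟨t, ht, ht0, h1⟩ := (((hS w).1 (hNS hw)).2 W hκ hW hPW).val hπ hw0
        obtain ⟨t', ht', ht0', h2⟩ := hu W hκ hPW t ht ht0
        refine ⟨⟨t', ht'⟩, fun h => ht0' (congrArg Subtype.val h), ?_⟩
        rw [Pool.Agent.Y948.PS.isU_iff]
        have h3 : algebraMap Kf Ω ⟨t', ht'⟩ = t' := rfl
        rw [h3, map_div₀, h1, h2, div_self]
        exact ((Valuation.pos_iff _).2 ht0').ne'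
    have h3 : N ≤ maxU ℓ κ Kf Ω P :=
      le_iSup (fun L : {L : IntermediateField Kf Ω // Lev ℓ L ∧ UnrP κ Kf Ω P L} => L.1)
        ⟨N, hN', hNu⟩
    exact h3 hzN

/-- the compactification of a level -/
theorem memU_of_mem (hx : RatF κ x) {N : IntermediateField R Ω} (hN : ∀ z ∈ N, MemU ℓ κ P N0 z)
    (h0 : N0 ≤ N) (z : Ω) (hz : Mem ℓ κ N z) : MemU ℓ κ P N0 z := by
  refine ⟨hz.1, fun W hκ hW hPW s hs hs0 => ?_⟩
  obtain ⟨t, ht, h1⟩ := hz.2 W hκ hW s (h0 hs) hs0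
  obtain ⟨t', ht', h2⟩ := (hN t ht).2 W hκ hW hPW s hs hs0
  refine ⟨t', ht', ?_⟩
  have h3 : z - t' = (z - t) + (t - t') := by ring
  rw [h3]
  exact (Valuation.map_add _ _ _).trans (max_le h1 h2)

omit [Normal R Ω] in
theorem Apx_mono {N N' : IntermediateField R Ω} (h : N ≤ N') {W : ValuationSubring Ω} {z : Ω}
    (hz : Apx N W z) : Apx N' W z := by
  intro s hs hs0
  obtain ⟨b, hb, hb0, h1⟩ := bdd_alg N W s⁻¹
  obtain ⟨t, ht, h2⟩ := hz b⁻¹ (inv_mem hb) (inv_ne_zero hb0)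
  refine ⟨t, h ht, h2.trans ?_⟩
  have hs1 : 0 < W.valuation s := (Valuation.pos_iff _).2 hs0
  have hb1 : 0 < W.valuation b := (Valuation.pos_iff _).2 hb0
  rw [map_inv₀] at h1 ⊢
  exact (inv_le_comm₀ hs1 hb1).1 h1

omit [Normal R Ω] in
theorem Mem_mono {N N' : IntermediateField R Ω} (h : N ≤ N') {z : Ω} (hz : Mem ℓ κ N z) :
    Mem ℓ κ N' z := ⟨hz.1, fun W h1 h2 => Apx_mono h (hz.2 W h1 h2)⟩

end cov

end Pool.Agent.H889.LM
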