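import Pool.Agent.H889.LM.Slev

/-!
# The section on the compactified levels
-/

set_option autoImplicit false
set_option linter.all false

open Polynomial FF

namespace Pool.Agent.H889.LM

open Pool.Agent.Y157.PS Pool.Agent.Y948.PS Pool.Agent.H889.PS

section top

variable {F Ω : Type} [Field F] [Field Ω] [Algebra F Ω]

/-- a valuation ring which contains a subfield over which the field is algebraic is trivial -/
theorem eq_top_of_alg [Algebra.IsAlgebraic F Ω] (W : ValuationSubring Ω)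
    (h : ∀ c : F, algebraMap F Ω c ∈ W) : W = ⊤ := by
  rw [eq_top_iff]
  intro z _
  have hz : IsIntegral F z := (Algebra.IsAlgebraic.isAlgebraic z).isIntegral
  obtain ⟨p, hp, hpz⟩ := hz
  let g : F →+* W := (algebraMap F Ω).codRestrict W.toSubring h
  have hint : IsIntegral W z := by
    refine ⟨p.map g, hp.map g, ?_⟩
    rw [eval₂_map]
    exact hpz
  obtain ⟨w, hw⟩ := (IsIntegrallyClosed.isIntegral_iff (R := W)).1 hint
  rw [← hw]
  exact w.2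

end top

section rest

variable {κ R Ω : Type} [Field κ] [IsAlgClosed κ] [CharZero κ] [Field R] [Field Ω] [Algebra κ R]
  [Algebra R Ω] [Algebra κ Ω] [IsScalarTower κ R Ω] {x : R} {ℓ : ℕ} [Fact ℓ.Prime]
  {N0 : IntermediateField R Ω} {P : ValuationSubring Ω → Prop} [IsAlgClosure R Ω]
  {k : Type} [Field k] [Algebra k κ]

/-- the compactification of a stable level is stable -/
theorem mem_stable {N : IntermediateField R Ω} (hN : ∀ z ∈ N, MemU ℓ κ P N0 z)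
    (h0 : N0 ≤ N) (hx : RatF κ x)
    (g : MFU ℓ κ P N0 ≃+* MFU ℓ κ P N0) (a : ∀ c : κ, ∃ c' : κ, g (algebraMap κ _ c) =
      algebraMap κ _ c')
    (hg : ∀ y : MFU ℓ κ P N0, (y : Ω) ∈ N → ((g y : MFU ℓ κ P N0) : Ω) ∈ N)
    (hg' : ∀ y : MFU ℓ κ P N0, (y : Ω) ∈ N → ((g.symm y : MFU ℓ κ P N0) : Ω) ∈ N)
    (w : MFU ℓ κ P N0) (hw : Mem ℓ κ N (w : Ω)) :
    Mem ℓ κ N ((g w : MFU ℓ κ P N0) : Ω) := by
  haveI : IsAlgClosed Ω := IsAlgClosure.isAlgClosed R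
  refine ⟨(g w).2.1, fun W hκ hW s hs hs0 => ?_⟩
  let M := MFU ℓ κ P N0
  obtain ⟨W', hW'⟩ := a_extv M Ω ((W.comap (algebraMap M Ω)).comap (g : M →+* M))
  have hmem : ∀ y : M, (y : Ω) ∈ W' ↔ ((g y : M) : Ω) ∈ W := by
    intro y
    have h1 : y ∈ W'.comap (algebraMap M Ω) ↔ y ∈ (W.comap (algebraMap M Ω)).comap (g : M →+* M) := by
      rw [hW']
    exact h1
  have hκ' : ∀ c : κ, algebraMap κ Ω c ∈ W' := by
    intro c
    have h1 := hmem (algebraMap κ M c)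
    obtain ⟨c', hc'⟩ := a c
    rw [hc'] at h1
    exact h1.2 (hκ c')
  have hW'top : W' ≠ ⊤ := by
    intro htop
    apply hW
    haveI : Algebra.IsAlgebraic M Ω := Algebra.IsAlgebraic.tower_top (K := R) M
    refine eq_top_of_alg (F := M) W fun y => ?_
    have h1 := (hmem (g.symm y)).1 (by rw [htop]; trivial)
    rw [g.apply_symm_apply] at h1
    exact h1
  have hsM : s ∈ M := hN s hs
  have hs' := hg' ⟨s, hsM⟩ hs
  have hs'0 : ((g.symm ⟨s, hsM⟩ : M) : Ω) ≠ 0 := by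
    intro h
    apply hs0
    have h1 : (g.symm ⟨s, hsM⟩ : M) = 0 := Subtype.ext h
    rw [map_eq_zero_iff _ g.symm.injective] at h1
    exact congrArg Subtype.val h1
  obtain ⟨t, ht, h1⟩ := hw.2 W' hκ' hW'top _ hs' hs'0
  rw [le_iff _ hs'0] at h1
  have htM : t ∈ M := hN t ht
  refine ⟨_, hg ⟨t, htM⟩ ht, ?_⟩
  rw [le_iff _ hs0]
  have h2 := (hmem ((w - ⟨t, htM⟩) / g.symm ⟨s, hsM⟩)).1 h1
  rw [map_div₀, map_sub, g.apply_symm_apply] at h2
  exact h2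

/-- the compactification of a stable level is stable under the section -/
theorem sec_stable (hx : RatF κ x) {s : (κ ≃ₐ[k] κ) →* RingAut (MFU ℓ κ P N0)}
    (hs : GSec k κ R (MFU ℓ κ P N0) x s) {N : IntermediateField R Ω} (hN : SL ℓ k κ x P N0 N)
    (σ : κ ≃ₐ[k] κ) :
    (∀ y : MFU ℓ κ P N0, (y : Ω) ∈ N → ((s σ y : MFU ℓ κ P N0) : Ω) ∈ N) ∧
    ∀ y : MFU ℓ κ P N0, (y : Ω) ∈ MF ℓ κ N → ((s σ y : MFU ℓ κ P N0) : Ω) ∈ MF ℓ κ N := by
  have h1 : ∀ σ : κ ≃ₐ[k] κ, ∀ y : MFU ℓ κ P N0, (y : Ω) ∈ N →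
      ((s σ y : MFU ℓ κ P N0) : Ω) ∈ N := by
    intro σ y hy
    exact hN.stb (s σ) (fun c => by rw [hs.const, AlgEquiv.commutes]) (hs.fixx σ)
      (fun c => ⟨σ c, hs.const σ c⟩) y hy
  refine ⟨h1 σ, fun y hy => ?_⟩
  refine mem_stable hN.le hN.ge hx (s σ) (fun c => ⟨σ c, hs.const σ c⟩) (h1 σ) (fun y hy => ?_) y hy
  have h2 : (s σ).symm y = s σ⁻¹ y := by
    rw [RingEquiv.symm_apply_eq]
    rw [← RingAut.mul_apply, ← map_mul, mul_inv_cancel, map_one]; rfl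
  rw [h2]
  exact h1 σ⁻¹ y hy

omit [IsAlgClosed κ] in
theorem MF_le {N : IntermediateField R Ω} (hx : RatF κ x) (hN : SL ℓ k κ x P N0 N)
    [IsAlgClosed κ] : MF ℓ κ N ≤ MFU ℓ κ P N0 := fun z hz =>
  memU_of_mem hx hN.le hN.ge z hz

/-- the section on the compactification of a stable level -/
def secN (hx : RatF κ x) {s : (κ ≃ₐ[k] κ) →* RingAut (MFU ℓ κ P N0)}
    (hs : GSec k κ R (MFU ℓ κ P N0) x s) {N : IntermediateField R Ω} (hN : SL ℓ k κ x P N0 N) :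
    (κ ≃ₐ[k] κ) →* RingAut (MF ℓ κ N) :=
  restrS (MF_le hx hN) s fun σ y hy => (sec_stable hx hs hN σ).2 y hy

theorem secN_apply (hx : RatF κ x) {s : (κ ≃ₐ[k] κ) →* RingAut (MFU ℓ κ P N0)}
    (hs : GSec k κ R (MFU ℓ κ P N0) x s) {N : IntermediateField R Ω} (hN : SL ℓ k κ x P N0 N)
    (σ : κ ≃ₐ[k] κ) (w : MF ℓ κ N) (h : (w : Ω) ∈ MFU ℓ κ P N0) :
    ((secN hx hs hN σ w : MF ℓ κ N) : Ω) = (s σ ⟨w.1, h⟩ : MFU ℓ κ P N0) := rfl

theorem secN_gsec (hx : RatF κ x) {s : (κ ≃ₐ[k] κ) →* RingAut (MFU ℓ κ P N0)}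
    (hs : GSec k κ R (MFU ℓ κ P N0) x s) {N : IntermediateField R Ω} (hN : SL ℓ k κ x P N0 N) :
    GSec k κ R (MF ℓ κ N) x (secN hx hs hN) := by
  refine ⟨fun σ c => ?_, fun σ => ?_, fun z => ?_⟩
  · apply Subtype.ext
    have h1 := congrArg (fun y : MFU ℓ κ P N0 => (y : Ω)) (hs.const σ c)
    exact h1
  · apply Subtype.ext
    have h1 := congrArg (fun y : MFU ℓ κ P N0 => (y : Ω)) (hs.fixx σ)
    exact h1
  · obtain ⟨E, hE, hE'⟩ := hs.cont ⟨z.1, MF_le hx hN z.2⟩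
    refine ⟨E, hE, fun σ hσ => Subtype.ext ?_⟩
    have h1 := congrArg (fun y : MFU ℓ κ P N0 => (y : Ω)) (hE' σ hσ)
    exact h1

end rest

end Pool.Agent.H889.LM
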