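import Pool.Agent.H889.LM.Loc2

/-!
# Stable levels and their compactifications
-/

set_option autoImplicit false
set_option linter.all false

open Polynomial FF

namespace Pool.Agent.H889.LM

open Pool.Agent.Y157.PS Pool.Agent.Y948.PS Pool.Agent.H889.PS

section restr

variable {R Ω : Type} [Field R] [Field Ω] [Algebra R Ω] {M M' : IntermediateField R Ω}

/-- the restriction of an action on `M` to a stable subfield `M'` -/
def restrS {G : Type} [Group G] (h : M' ≤ M) (s : G →* RingAut M)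
    (hst : ∀ (σ : G) (w : M), (w : Ω) ∈ M' → ((s σ w : M) : Ω) ∈ M') : G →* RingAut M' where
  toFun σ :=
    { toFun := fun w => ⟨(s σ ⟨w.1, h w.2⟩ : M), hst σ _ w.2⟩
      invFun := fun w => ⟨(s σ⁻¹ ⟨w.1, h w.2⟩ : M), hst σ⁻¹ _ w.2⟩
      left_inv := fun w => by
        apply Subtype.ext
        change ((s σ⁻¹ (s σ ⟨w.1, h w.2⟩) : M) : Ω) = w.1
        have h1 : s σ⁻¹ (s σ ⟨w.1, h w.2⟩) = ⟨w.1, h w.2⟩ := by
          rw [← RingAut.mul_apply, ← map_mul, inv_mul_cancel, map_one]; rfl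
        rw [h1]
      right_inv := fun w => by
        apply Subtype.ext
        change ((s σ (s σ⁻¹ ⟨w.1, h w.2⟩) : M) : Ω) = w.1
        have h1 : s σ (s σ⁻¹ ⟨w.1, h w.2⟩) = ⟨w.1, h w.2⟩ := by
          rw [← RingAut.mul_apply, ← map_mul, mul_inv_cancel, map_one]; rfl
        rw [h1]
      map_mul' := fun a b => by
        apply Subtype.ext
        change ((s σ (⟨a.1, h a.2⟩ * ⟨b.1, h b.2⟩) : M) : Ω) = _
        rw [map_mul]; rfl
      map_add' := fun a b => by
        apply Subtype.ext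
        change ((s σ (⟨a.1, h a.2⟩ + ⟨b.1, h b.2⟩) : M) : Ω) = _
        rw [map_add]; rfl }
  map_one' := by
    apply RingEquiv.ext
    intro w
    apply Subtype.ext
    change ((s 1 ⟨w.1, h w.2⟩ : M) : Ω) = w.1
    rw [map_one]; rfl
  map_mul' σ τ := by
    apply RingEquiv.ext
    intro w
    apply Subtype.ext
    change ((s (σ * τ) ⟨w.1, h w.2⟩ : M) : Ω) = ((s σ ⟨(s τ ⟨w.1, h w.2⟩ : M), _⟩ : M) : Ω)
    rw [map_mul]; rfl

theorem restrS_apply {G : Type} [Group G] (h : M' ≤ M) (s : G →* RingAut M)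
    (hst : ∀ (σ : G) (w : M), (w : Ω) ∈ M' → ((s σ w : M) : Ω) ∈ M') (σ : G) (w : M') :
    ((restrS h s hst σ w : M') : Ω) = (s σ ⟨w.1, h w.2⟩ : M) := rfl

end restr

section stb

variable {κ R Ω : Type} [Field κ] [IsAlgClosed κ] [CharZero κ] [Field R] [Field Ω] [Algebra κ R]
  [Algebra R Ω] [Algebra κ Ω] [IsScalarTower κ R Ω] {x : R} {ℓ : ℕ} [Fact ℓ.Prime]
  {N0 : IntermediateField R Ω} {P : ValuationSubring Ω → Prop}

/-- `N` is stable under the automorphisms of `M` over `k(x)` which map `κ` to itself -/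
def Stb (k κ : Type) {R Ω : Type} [Field k] [Field κ] [Algebra k κ] [Field R] [Field Ω]
    [Algebra κ R] [Algebra R Ω] [Algebra κ Ω] [IsScalarTower κ R Ω] (x : R)
    (M N : IntermediateField R Ω) : Prop :=
  ∀ g : M ≃+* M, (∀ c : k, g (algebraMap κ M (algebraMap k κ c)) =
      algebraMap κ M (algebraMap k κ c)) → g (algebraMap R M x) = algebraMap R M x →
    (∀ c : κ, ∃ c' : κ, g (algebraMap κ M c) = algebraMap κ M c') →
    ∀ y : M, (y : Ω) ∈ N → ((g y : M) : Ω) ∈ N

variable [IsAlgClosure R Ω]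

/-- stable levels -/
structure SL (ℓ : ℕ) (k κ : Type) {R Ω : Type} [Field k] [Field κ] [Algebra k κ] [Field R]
    [Field Ω] [Algebra κ R] [Algebra R Ω] [Algebra κ Ω] [IsScalarTower κ R Ω]
    [Algebra.IsAlgebraic R Ω] (x : R)
    (P : ValuationSubring Ω → Prop) (N0 N : IntermediateField R Ω) : Prop where
  lev : Lev ℓ N
  ge : N0 ≤ N
  le : ∀ z ∈ N, MemU ℓ κ P N0 z
  stb : Stb k κ x (MFU ℓ κ P N0) N

theorem ringmap_R {M : Type} [Field M] [Algebra R M] [Algebra κ M] [IsScalarTower κ R M]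
    (hx : RatF κ x) (g : M ≃+* M)
    (h1 : ∀ c : κ, ∃ c' : κ, g (algebraMap κ M c) = algebraMap κ M c')
    (h2 : g (algebraMap R M x) = algebraMap R M x) (c : R) :
    ∃ c' : R, g (algebraMap R M c) = algebraMap R M c' := by
  have hc : c ∈ IntermediateField.adjoin κ {x} := by rw [hx.gen]; trivial
  have key : ∀ y ∈ IntermediateField.adjoin κ {x}, ∃ c' : R, g (algebraMap R M y) =
      algebraMap R M c' := by
    intro y hy
    induction hy using IntermediateField.adjoin_induction with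
    | mem y hy =>
      rw [Set.mem_singleton_iff] at hy
      exact ⟨x, by rw [hy, h2]⟩
    | algebraMap c =>
      obtain ⟨c', hc'⟩ := h1 c
      exact ⟨algebraMap κ R c', by
        rw [← IsScalarTower.algebraMap_apply, hc', ← IsScalarTower.algebraMap_apply]⟩
    | add a b _ _ ha hb =>
      obtain ⟨a', ha'⟩ := ha
      obtain ⟨b', hb'⟩ := hb
      exact ⟨a' + b', by rw [map_add, map_add, ha', hb', map_add]⟩
    | inv a _ ha =>
      obtain ⟨a', ha'⟩ := ha
      exact ⟨a'⁻¹, by rw [map_inv₀, map_inv₀, ha', map_inv₀]⟩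
    | mul a b _ _ ha hb =>
      obtain ⟨a', ha'⟩ := ha
      obtain ⟨b', hb'⟩ := hb
      exact ⟨a' * b', by rw [map_mul, map_mul, ha', hb', map_mul]⟩
  exact key c hc

/-- existence of stable levels -/
theorem exists_SL (k : Type) [Field k] [Algebra k κ] (hk : Algebra.IsAlgebraic k κ)
    (hx : RatF κ x) (hN : Lev ℓ N0)
    (hP : ∀ (γ : Ω ≃ₐ[R] Ω) (W : ValuationSubring Ω), P W → P (W.comap (γ : Ω →+* Ω)))
    (N1 : IntermediateField R Ω) (h1 : Lev ℓ N1) (h1' : ∀ z ∈ N1, MemU ℓ κ P N0 z)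
    (z : Ω) (hz : MemU ℓ κ P N0 z) :
    ∃ N : IntermediateField R Ω, SL ℓ k κ x P N0 N ∧ z ∈ N ∧ N1 ≤ N := by
  haveI : CharZero R := charZero_of_injective_algebraMap (algebraMap κ R).injective
  haveI : IsAlgClosed Ω := IsAlgClosure.isAlgClosed R
  have hK : ∀ (γ : Ω ≃ₐ[R] Ω), ∀ t ∈ N0, γ t ∈ N0 := fun γ t ht => lev_stable hN γ t ht
  obtain ⟨M, hM⟩ : ∃ M : IntermediateField R Ω, M = MFU ℓ κ P N0 := ⟨_, rfl⟩
  have hMm : ∀ z, z ∈ M ↔ MemU ℓ κ P N0 z := fun z => by rw [hM]; rfl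
  have hN0M : N0 ≤ M := fun z hz => by
    rw [hMm]
    exact ⟨Pro_lev hN z hz, fun W h1 h2 _ => Apx.of_mem hz⟩
  -- `M / R` is Galois
  haveI hnorm : Normal R M := by
    rw [IntermediateField.normal_iff_forall_map_le']
    rintro σ _ ⟨z, hz, rfl⟩
    exact (hMm _).2 (((hMm z).1 hz).conj hP hK σ)
  haveI : Algebra.IsSeparable R M := Algebra.IsAlgebraic.isSeparable_of_perfectField
  haveI hgal : IsGalois R M := ⟨⟩
  have halg : Algebra.IsAlgebraic R M := inferInstance
  -- generators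
  haveI := hN.fin
  haveI := h1.fin
  obtain ⟨α, hα⟩ := Field.exists_primitive_element R N0
  obtain ⟨β, hβ⟩ := Field.exists_primitive_element R N1
  have hαM : (α : Ω) ∈ M := hN0M α.2
  have hβM : (β : Ω) ∈ M := (hMm _).2 (h1' _ β.2)
  have hzM : z ∈ M := (hMm _).2 hz
  obtain ⟨T₁, hT₁, hm₁, hs₁⟩ := Pool.Agent.Y748.PS.exists_orbit (k := k) hk hx halg
    (⟨α, hαM⟩ : M)
  obtain ⟨T₂, hT₂, hm₂, hs₂⟩ := Pool.Agent.Y748.PS.exists_orbit (k := k) hk hx halg
    (⟨β, hβM⟩ : M)
  obtain ⟨T₃, hT₃, hm₃, hs₃⟩ := Pool.Agent.Y748.PS.exists_orbit (k := k) hk hx halg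
    (⟨z, hzM⟩ : M)
  obtain ⟨T, hT⟩ : ∃ T : Set M, T = T₁ ∪ (T₂ ∪ T₃) := ⟨_, rfl⟩
  have hTfin : T.Finite := by rw [hT]; exact hT₁.union (hT₂.union hT₃)
  have hTs : ∀ ψ : M ≃+* M, (∀ c : k, ψ (algebraMap κ M (algebraMap k κ c)) =
        algebraMap κ M (algebraMap k κ c)) → ψ (algebraMap R M x) = algebraMap R M x →
        ∀ w ∈ T, ψ w ∈ T := by
    intro ψ a1 a2 w hw
    rw [hT] at hw ⊢
    rcases hw with hw | hw | hw
    · exact Or.inl (hs₁ ψ a1 a2 w hw)
    · exact Or.inr (Or.inl (hs₂ ψ a1 a2 w hw))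
    · exact Or.inr (Or.inr (hs₃ ψ a1 a2 w hw))
  have hTgal : ∀ g : M ≃ₐ[R] M, ∀ w ∈ T, g w ∈ T := by
    intro g w hw
    refine hTs (g : M ≃+* M) (fun c => ?_) (g.commutes x) w hw
    change g (algebraMap κ M (algebraMap k κ c)) = _
    rw [IsScalarTower.algebraMap_apply κ R M]
    exact g.commutes _
  haveI : Finite T := hTfin
  obtain ⟨N', hN'⟩ : ∃ N' : IntermediateField R M, N' = IntermediateField.adjoin R T := ⟨_, rfl⟩
  have hTN : ∀ w ∈ T, w ∈ N' := fun w hw => by
    rw [hN']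
    exact IntermediateField.subset_adjoin R T hw
  haveI hfin : FiniteDimensional R N' := by
    rw [hN']
    exact IntermediateField.finiteDimensional_adjoin fun w _ => (halg.isAlgebraic w).isIntegral
  have hnormN : Normal R N' := by
    rw [IntermediateField.normal_iff_forall_map_le']
    intro g
    rw [hN', IntermediateField.adjoin_map, IntermediateField.adjoin_le_iff]
    rintro _ ⟨w, hw, rfl⟩
    exact IntermediateField.subset_adjoin R T (hTgal g w hw)
  haveI : Algebra.IsSeparable R N' := inferInstance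
  have hgalN : IsGalois R N' := ⟨⟩
  have hpow : ∀ z : M, ∃ N : IntermediateField R M, z ∈ N ∧ Lev ℓ N := by
    intro z
    obtain ⟨N, g1, _, g2⟩ := exists_lev (ℓ := ℓ) (⊤ : IntermediateField R M)
      (fun σ y _ => trivial)
      (fun θ _ σ => by
        obtain ⟨k, hk⟩ := ((hMm θ).1 θ.2).1
        refine ⟨k, ?_⟩
        have h1 : ∀ (j : ℕ) (z : M), ((σ.liftNormal Ω) ^ j) (z : Ω) = ((σ ^ j) z : M) := by
          intro j
          induction j with
          | zero => intro z; simp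
          | succ j ih =>
            intro z
            rw [pow_succ, AlgEquiv.mul_apply, pow_succ, AlgEquiv.mul_apply, ← ih]
            congr 1
            exact AlgEquiv.liftNormal_commutes σ Ω z
        apply Subtype.ext
        rw [← h1]
        exact hk (σ.liftNormal Ω) 1)
      (z := z) trivial
    exact ⟨N, g1, g2⟩
  have hLev' : Lev ℓ N' := Pool.Agent.Y748.PS.lev_of_galois hpow N' hfin hgalN
  -- the lift to `Ω`
  have hlift : ∀ y : M, (y : Ω) ∈ IntermediateField.lift N' ↔ y ∈ N' := fun y =>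
    IntermediateField.mem_lift y
  have hliftM : IntermediateField.lift N' ≤ M := IntermediateField.lift_le N'
  have hα' : ∀ (K : IntermediateField R Ω) (a : K) (ha : IntermediateField.adjoin R {a} = ⊤)
      (haN : (a : Ω) ∈ IntermediateField.lift N'), K ≤ IntermediateField.lift N' := by
    intro K a ha haN y hy
    have h2 : (⟨y, hy⟩ : K) ∈ IntermediateField.adjoin R {a} := by rw [ha]; trivial
    have h3 : (IntermediateField.adjoin R {a}).map K.val ≤ IntermediateField.lift N' := by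
      rw [IntermediateField.adjoin_map, IntermediateField.adjoin_le_iff]
      rintro _ ⟨w, hw, rfl⟩
      rw [Set.mem_singleton_iff] at hw
      rw [hw]
      exact haN
    exact h3 ⟨⟨y, hy⟩, h2, rfl⟩
  refine ⟨IntermediateField.lift N', ⟨?_, ?_, ?_, ?_⟩, ?_, ?_⟩
  · haveI := hLev'.fin
    obtain ⟨m, hm⟩ := hLev'.card
    let e : N' ≃ₐ[R] IntermediateField.lift N' := IntermediateField.liftAlgEquiv N'
    exact ⟨Module.Finite.equiv e.toLinearEquiv, IsGalois.of_algEquiv e, m, by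
      rw [← hm]
      exact e.toLinearEquiv.finrank_eq.symm⟩
  · exact hα' N0 α hα ((hlift ⟨α, hαM⟩).2 (hTN _ (by rw [hT]; exact Or.inl hm₁)))
  · intro y hy
    exact (hMm _).1 (hliftM hy)
  · intro g a1 a2 a3 y hy
    subst hM
    rw [hlift] at hy ⊢
    rw [hN'] at hy ⊢
    induction hy using IntermediateField.adjoin_induction with
    | mem y hy => exact IntermediateField.subset_adjoin R T (hTs g a1 a2 y hy)
    | algebraMap c =>
      obtain ⟨c', hc'⟩ := ringmap_R hx g a3 a2 c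
      rw [hc']
      exact (IntermediateField.adjoin R T).algebraMap_mem c'
    | add a b _ _ ha hb => rw [map_add]; exact add_mem ha hb
    | inv a _ ha => rw [map_inv₀]; exact inv_mem ha
    | mul a b _ _ ha hb => rw [map_mul]; exact mul_mem ha hb
  · exact (hlift ⟨z, hzM⟩).2 (hTN _ (by rw [hT]; exact Or.inr (Or.inr hm₃)))
  · exact hα' N1 β hβ ((hlift ⟨β, hβM⟩).2 (hTN _ (by rw [hT]; exact Or.inr (Or.inl hm₂))))

end stb

end Pool.Agent.H889.LM
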